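import Pool.Agent.TFG.Tower

/-!
# Pairwise disjoint tracks act faithfully
-/

set_option autoImplicit false

namespace Pool.Agent.TFG

/-- The exponents of the generators. -/
noncomputable def Raag.expo (V : Type) (R : V → V → Prop) : Raag V R →* Multiplicative (V →₀ ℤ) :=
  Raag.lift (fun a => Multiplicative.ofAdd (Finsupp.single a 1)) fun _ _ _ => mul_comm _ _

theorem Raag.expo_of {V : Type} {R : V → V → Prop} (a : V) :
    Raag.expo V R (Raag.of a) = Multiplicative.ofAdd (Finsupp.single a 1) :=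
  Raag.lift_of _ _ a

/-- On the subgroup generated by pairwise commuting generators the exponents determine the
element. -/
theorem Raag.expo_inj {V : Type} {R : V → V → Prop} (Z : Set V)
    (hZ : ∀ z ∈ Z, ∀ z' ∈ Z, z ≠ z' → R z z') (l : Raag V R)
    (hl : l ∈ Subgroup.closure ((Raag.of : V → Raag V R) '' Z))
    (h : ∀ z ∈ Z, (Multiplicative.toAdd (Raag.expo V R l)) z = 0) : l = 1 := by
  classical
  have hcomm : ∀ x ∈ ((Raag.of : V → Raag V R) '' Z), ∀ y ∈ ((Raag.of : V → Raag V R) '' Z),
      x * y = y * x := by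
    rintro _ ⟨a, ha, rfl⟩ _ ⟨b, hb, rfl⟩
    by_cases hab : a = b
    · rw [hab]
    · exact Raag.comm (hZ a ha b hb hab)
  letI : CommGroup (Subgroup.closure ((Raag.of : V → Raag V R) '' Z)) :=
    Subgroup.closureCommGroupOfComm hcomm
  let gen : V → Additive (Subgroup.closure ((Raag.of : V → Raag V R) '' Z)) := fun v =>
    if hv : v ∈ Z then Additive.ofMul ⟨Raag.of v, Subgroup.subset_closure ⟨v, hv, rfl⟩⟩ else 0
  let σ : (V →₀ ℤ) →+ Additive (Subgroup.closure ((Raag.of : V → Raag V R) '' Z)) :=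
    Finsupp.liftAddHom fun v => zmultiplesHom _ (gen v)
  let τ : Raag V R →* Subgroup.closure ((Raag.of : V → Raag V R) '' Z) :=
    (AddMonoidHom.toMultiplicativeLeft σ).comp (Raag.expo V R)
  have hτ : ∀ x ∈ Subgroup.closure ((Raag.of : V → Raag V R) '' Z), (τ x : Raag V R) = x := by
    intro x hx
    induction hx using Subgroup.closure_induction with
    | mem x hx =>
      obtain ⟨a, ha, rfl⟩ := hx
      have h1 : σ (Finsupp.single a 1) = gen a := by
        rw [Finsupp.liftAddHom_apply_single, zmultiplesHom_apply, one_zsmul]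
      have h2 : τ (Raag.of a) = Additive.toMul (σ (Finsupp.single a 1)) := by
        change Additive.toMul (σ (Multiplicative.toAdd (Raag.expo V R (Raag.of a)))) = _
        rw [Raag.expo_of, toAdd_ofAdd]
      rw [h2, h1]
      change ((Additive.toMul (if hv : a ∈ Z then _ else _) :
        Subgroup.closure ((Raag.of : V → Raag V R) '' Z)) : Raag V R) = _
      rw [dif_pos ha]
      rfl
    | one => rw [map_one]; rfl
    | mul x y _ _ hx hy => rw [map_mul, Subgroup.coe_mul, hx, hy]
    | inv x _ hx => rw [map_inv, Subgroup.coe_inv, hx]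
  have h0 : τ l = 1 := by
    change Additive.toMul (σ (Multiplicative.toAdd (Raag.expo V R l))) = 1
    rw [Finsupp.liftAddHom_apply, Finsupp.sum, Finset.sum_eq_zero]
    · rfl
    · intro v _
      rw [zmultiplesHom_apply]
      by_cases hv : v ∈ Z
      · rw [h v hv, zero_zsmul]
      · have : gen v = 0 := dif_neg hv
        rw [this, zsmul_zero]
  rw [← hτ l hl, h0]
  rfl

theorem Tw.good_inj {X : Type} (W : Tw X) (T : Subgroup (Equiv.Perm X)) [Nonempty W.Ω]
    (hψ : ∀ (ω : W.Ω) (n : ℤ), (W.ψ ^ n) ω = ω → n = 0) (Z : Set (W.Trk T))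
    (hZ : ∀ z ∈ Z, ∀ z' ∈ Z, z ≠ z' → W.Dis T z z') (x : W.F T)
    (hx : x.left ∈ Subgroup.closure ((Raag.of : _ → Raag (W.Trk T) (W.Dis T)) '' Z))
    (hg : W.g x = 1) : x = 1 := by
  classical
  have hmove : ∀ l ∈ Subgroup.closure ((Raag.of : _ → Raag (W.Trk T) (W.Dis T)) '' Z),
      ∀ z ∈ Z, ∀ ω, ((Raag.lift W.Uv W.Uv_comm l : T) : Equiv.Perm X) (z.t ω) =
        z.t ((W.ψ ^ (Multiplicative.toAdd (Raag.expo _ _ l) z)) ω) := by
    intro l hl
    induction hl using Subgroup.closure_induction with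
    | mem l hl =>
      obtain ⟨a, ha, rfl⟩ := hl
      intro z hz ω
      rw [Raag.lift_of, Raag.expo_of, toAdd_ofAdd]
      by_cases haz : a = z
      · rw [haz, Finsupp.single_eq_same, zpow_one]
        exact Tw.U_track (ht := z.ht) ω
      · rw [Finsupp.single_apply, if_neg haz, zpow_zero]
        exact Tw.U_off (t := a.t) (ht := a.ht) (by
          rw [z.ht]; exact hZ z hz a ha (fun h => haz h.symm) ω)
    | one =>
      intro z hz ω
      rw [map_one, map_one, toAdd_one, Finsupp.zero_apply, zpow_zero]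
      rfl
    | mul l l' _ _ h1 h2 =>
      intro z hz ω
      rw [map_mul, map_mul, toAdd_mul, Finsupp.add_apply, Subgroup.coe_mul,
        Equiv.Perm.mul_apply, h2 z hz, h1 z hz, zpow_add, Equiv.Perm.mul_apply]
    | inv l _ h1 =>
      intro z hz ω
      rw [map_inv, map_inv, toAdd_inv, Finsupp.neg_apply, Subgroup.coe_inv,
        Equiv.Perm.inv_eq_iff_eq, h1 z hz, ← Equiv.Perm.mul_apply, ← zpow_add, add_neg_cancel,
        zpow_zero]
      rfl
  have hgx : W.g x = Raag.lift W.Uv W.Uv_comm x.left * Subgroup.inclusion W.P_le x.right := rfl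
  have hl : x.left = 1 := by
    refine Raag.expo_inj Z hZ x.left hx fun z hz => ?_
    obtain ⟨ω⟩ := (inferInstance : Nonempty W.Ω)
    refine hψ ω _ ?_
    have h1 := hmove _ hx z hz ω
    have h2 : ((Raag.lift W.Uv W.Uv_comm x.left : T) : Equiv.Perm X) *
        x.right.1 = 1 := by
      have := congrArg (Subtype.val) (hgx.symm.trans hg)
      exact this
    have h3 : ((Raag.lift W.Uv W.Uv_comm x.left : T) : Equiv.Perm X) (z.t ω) =
        (x.right.1)⁻¹ (z.t ω) := by
      rw [eq_inv_of_mul_eq_one_left h2]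
    have h4 : W.β ((x.right.1)⁻¹ (z.t ω)) = W.β (z.t ω) := by
      have := (x.right⁻¹).2.2 (z.t ω)
      exact this
    have h5 := congrArg W.β (h1.symm.trans h3)
    rw [h4, z.ht, z.ht] at h5
    exact h5
  rw [hl, map_one, one_mul] at hgx
  refine SemidirectProduct.ext hl ?_
  have h6 := hgx.symm.trans hg
  exact Subgroup.inclusion_injective W.P_le (by rw [h6, SemidirectProduct.one_right, map_one])

end Pool.Agent.TFG
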