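import Pool.Agent.TFG.Base
import Pool.Agent.TFG.Good

/-!
# Elements which act trivially become trivial over a smaller set
-/

set_option autoImplicit false

open Filter

namespace Pool.Agent.TFG

variable {X : Type} [AddAction ℤ X] {S : Sys X}

/-! ### small sets -/

theorem ev_sub {T : Set X} (hT : T ∈ S.F) : ∀ᶠ U : Base S in atTop, U.1 ⊆ T := by
  obtain ⟨U, h1, h2, h3⟩ := S.cof T hT
  let B : Base S := ⟨U, h1, h3⟩
  have : ∀ᶠ U' : Base S in atTop, B ≤ U' := eventually_ge_atTop B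
  filter_upwards [this] with U' h
  exact Set.Subset.trans h h2

theorem ev_of {p : X → Prop} (hp : ∀ᶠ x in S.F, p x) : ∀ᶠ U : Base S in atTop, ∀ u ∈ U.1, p u := by
  filter_upwards [ev_sub hp] with U h
  exact fun u hu => h hu

theorem ev_sep (D : ℕ) : ∀ᶠ U : Base S in atTop, ∀ k : ℤ, k ≠ 0 → k.natAbs ≤ D →
    ∀ u ∈ U.1, k +ᵥ u ∉ U.1 := by
  have h : ∀ᶠ U : Base S in atTop, ∀ k ∈ Finset.Icc (-(D : ℤ)) D, k ≠ 0 →
      ∀ u ∈ U.1, k +ᵥ u ∉ U.1 := by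
    rw [eventually_all_finset]
    intro k _
    by_cases hk : k = 0
    · exact Eventually.of_forall fun U h => absurd hk h
    · obtain ⟨T, h1, h2⟩ := S.sep k hk
      filter_upwards [ev_sub h1] with U h3
      exact fun _ u hu h4 => h2 u (h3 hu) (h3 h4)
  filter_upwards [h] with U h1 k hk hD
  exact h1 k (Finset.mem_Icc.2 (by omega)) hk

/-! ### permutations which permute the translates of a small set -/

/-- `σ` maps the translate by `k` onto the translate by `m`. -/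
def Mp (U : Set X) (σ : Equiv.Perm X) (k m : ℤ) : Prop :=
  ∀ z, (-k +ᵥ z ∈ U ↔ -m +ᵥ σ z ∈ U)

/-- `σ` maps the translates by at most `D` to translates, and so does its inverse, and the
translations grow by at most `D₀`. -/
def Gd (U : Set X) (D D₀ : ℕ) (σ : Equiv.Perm X) : Prop :=
  ∀ k : ℤ, k.natAbs ≤ D → (∃ m : ℤ, m.natAbs ≤ k.natAbs + D₀ ∧ Mp U σ k m) ∧
    (∃ m : ℤ, m.natAbs ≤ k.natAbs + D₀ ∧ Mp U σ m k)

theorem Mp.mul {U : Set X} {σ τ : Equiv.Perm X} {k l m : ℤ} (h : Mp U τ k l) (h' : Mp U σ l m) :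
    Mp U (σ * τ) k m := fun z => (h z).trans (h' (τ z))

theorem Mp.inv {U : Set X} {σ : Equiv.Perm X} {k m : ℤ} (h : Mp U σ k m) : Mp U σ⁻¹ m k := by
  intro z
  have := h (σ⁻¹ z)
  rw [perm_ai] at this
  exact this.symm

theorem Gd.mono {U : Set X} {D D' D₀ D₀' : ℕ} {σ : Equiv.Perm X} (h : Gd U D D₀ σ) (hD : D' ≤ D)
    (h₀ : D₀ ≤ D₀') : Gd U D' D₀' σ := by
  intro k hk
  obtain ⟨⟨m, h1, h2⟩, n, h3, h4⟩ := h k (hk.trans hD)
  exact ⟨⟨m, by omega, h2⟩, n, by omega, h4⟩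

theorem Gd.mul {U : Set X} {D a b : ℕ} {σ τ : Equiv.Perm X} (h : Gd U (D + a + b) a σ)
    (h' : Gd U (D + a + b) b τ) : Gd U D (a + b) (σ * τ) := by
  intro k hk
  constructor
  · obtain ⟨⟨m, h1, h2⟩, -⟩ := h' k (by omega)
    obtain ⟨⟨n, h3, h4⟩, -⟩ := h m (by omega)
    exact ⟨n, by omega, h2.mul h4⟩
  · obtain ⟨-, ⟨m, h1, h2⟩⟩ := h k (by omega)
    obtain ⟨-, ⟨n, h3, h4⟩⟩ := h' m (by omega)
    exact ⟨n, by omega, h4.mul h2⟩

theorem Gd.inv {U : Set X} {D D₀ : ℕ} {σ : Equiv.Perm X} (h : Gd U D D₀ σ) : Gd U D D₀ σ⁻¹ := by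
  intro k hk
  obtain ⟨⟨m, h1, h2⟩, n, h3, h4⟩ := h k hk
  exact ⟨⟨n, h3, h4.inv⟩, m, h1, h2.inv⟩

theorem mp_of_mem_L {g : Equiv.Perm X} (hg : g ∈ L S) {M : ℕ}
    (hM : ∀ z : X, ∃ m : ℤ, |m| ≤ M ∧ g z = m +ᵥ z) (k : ℤ) :
    ∃ m : ℤ, m.natAbs ≤ k.natAbs + M ∧ ∀ᶠ U : Base S in atTop, Mp U.1 g k m := by
  obtain ⟨m, h1, h2⟩ := hg.2 k
  obtain ⟨n, h3, h4⟩ := hM (k +ᵥ S.x₀)
  have h5 : m = n + k := by
    refine vadd_inj' S (z := S.x₀) ?_
    rw [← h1, h4, add_vadd]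
  refine ⟨m, ?_, ?_⟩
  · rw [Int.abs_eq_natAbs] at h3
    omega
  · filter_upwards [ev_of h2] with U hU z
    constructor
    · intro hz
      have h6 := hU _ hz
      rw [vadd_neg_vadd] at h6
      rw [h6, neg_vadd_vadd]
      exact hz
    · intro hz
      have h6 := hU _ hz
      rw [vadd_neg_vadd] at h6
      rw [← g.injective h6, neg_vadd_vadd]
      exact hz

theorem gd_of_mem_L {g : Equiv.Perm X} (hg : g ∈ L S) :
    ∃ D₀ : ℕ, ∀ D : ℕ, ∀ᶠ U : Base S in atTop, Gd U.1 D D₀ g := by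
  obtain ⟨M, hM⟩ := hg.1
  obtain ⟨M', hM'⟩ := ((L S).inv_mem hg).1
  refine ⟨M + M', fun D => ?_⟩
  have h1 : ∀ᶠ U : Base S in atTop, ∀ k ∈ Finset.Icc (-(D : ℤ)) D,
      (∃ m : ℤ, m.natAbs ≤ k.natAbs + (M + M') ∧ Mp U.1 g k m) ∧
      (∃ m : ℤ, m.natAbs ≤ k.natAbs + (M + M') ∧ Mp U.1 g m k) := by
    rw [eventually_all_finset]
    intro k _
    obtain ⟨m, h2, h3⟩ := mp_of_mem_L hg hM k
    obtain ⟨n, h4, h5⟩ := mp_of_mem_L ((L S).inv_mem hg) hM' k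
    filter_upwards [h3, h5] with U h6 h7
    refine ⟨⟨m, by omega, h6⟩, n, by omega, ?_⟩
    have := h7.inv
    rwa [inv_inv] at this
  filter_upwards [h1] with U h2 k hk
  exact h2 k (Finset.mem_Icc.2 (by omega))

/-! ### uniform tracks -/

/-- The track of `v` is the translate of `U` by `k`. -/
def IsU (U : Base S) (v : (tw U).Trk (L S)) (k : ℤ) : Prop :=
  ∀ z, (z = trk v z ↔ -k +ᵥ z ∈ U.1)

/-- The tracks which are translates of `U` by at most `D`. -/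
def Z (U : Base S) (D : ℕ) : Set ((tw U).Trk (L S)) := {v | ∃ k : ℤ, k.natAbs ≤ D ∧ IsU U v k}

theorem Z_mono (U : Base S) {D D' : ℕ} (h : D ≤ D') : Z U D ⊆ Z U D' :=
  fun _ ⟨k, h1, h2⟩ => ⟨k, h1.trans h, h2⟩

theorem trk_t {U : Base S} (v : (tw U).Trk (L S)) (y : U.1) : trk v (v.t y) = v.t y := by
  unfold trk
  exact congrArg v.t (v.ht y)

theorem gd_U {U : Base S} {D : ℕ} {w : (tw U).Trk (L S)} {m : ℤ} (hw : IsU U w m)
    (hs : ∀ k : ℤ, k ≠ 0 → k.natAbs ≤ D + m.natAbs → ∀ u ∈ U.1, k +ᵥ u ∉ U.1) :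
    Gd U.1 D 0 ((tw U).U w.t w.ht) := by
  have key : ∀ k : ℤ, k.natAbs ≤ D → Mp U.1 ((tw U).U w.t w.ht) k k := by
    intro k hk z
    by_cases hz : z = trk w z
    · have h1 : (tw U).U w.t w.ht z = w.t ((tw U).ψ ⟨st U z, st_mem U z⟩) := by
        conv_lhs => rw [hz]
        exact Tw.U_track _
      have h2 : -m +ᵥ z ∈ U.1 := (hw z).1 hz
      have h3 : -m +ᵥ (tw U).U w.t w.ht z ∈ U.1 := by
        rw [h1]
        exact (hw _).1 (trk_t w _).symm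
      by_cases hkm : k = m
      · rw [hkm]
        exact iff_of_true h2 h3
      · refine iff_of_false (fun h4 => ?_) (fun h4 => ?_)
        · refine hs (m - k) (by omega) (by omega) _ h2 ?_
          rw [← add_vadd]
          convert h4 using 2
          omega
        · refine hs (m - k) (by omega) (by omega) _ h3 ?_
          rw [← add_vadd]
          convert h4 using 2
          omega
    · have h1 : (tw U).U w.t w.ht z = z := Tw.U_off hz
      rw [h1]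
  exact fun k hk => ⟨⟨k, by omega, key k hk⟩, k, by omega, key k hk⟩

theorem smul_mem_Z {U : Base S} {D D₀ : ℕ} {p : (tw U).P (L S)} (hp : Gd U.1 D D₀ p.1)
    {v : (tw U).Trk (L S)} (hv : v ∈ Z U D) : p • v ∈ Z U (D + D₀) := by
  obtain ⟨k, hk, h⟩ := hv
  obtain ⟨⟨m, h1, h2⟩, -⟩ := hp k hk
  refine ⟨m, by omega, fun z => ?_⟩
  obtain ⟨z, rfl⟩ := p.1.surjective z
  rw [← h2 z, ← h z]
  have h3 : trk (p • v) (p.1 z) = p.1 (trk v z) := by
    have h4 : (⟨st U (p.1 z), st_mem U _⟩ : U.1) = ⟨st U z, st_mem U _⟩ := p.2.2 z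
    change p.1 (v.t ⟨st U (p.1 z), st_mem U _⟩) = _
    rw [h4]
    rfl
  rw [h3]
  exact p.1.injective.eq_iff

theorem act_mem {U : Base S} {D D₀ : ℕ} {p : (tw U).P (L S)} (hp : Gd U.1 D D₀ p.1)
    {l : Raag ((tw U).Trk (L S)) ((tw U).Dis (L S))}
    (hl : l ∈ Subgroup.closure ((Raag.of : _ → Raag _ ((tw U).Dis (L S))) '' Z U D)) :
    Raag.act ((tw U).dis_smul (L S)) p l ∈
      Subgroup.closure ((Raag.of : _ → Raag _ ((tw U).Dis (L S))) '' Z U (D + D₀)) := by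
  induction hl using Subgroup.closure_induction with
  | mem l hl =>
    obtain ⟨v, hv, rfl⟩ := hl
    rw [Raag.act_of]
    exact Subgroup.subset_closure ⟨_, smul_mem_Z hp hv, rfl⟩
  | one => rw [map_one]; exact Subgroup.one_mem _
  | mul a b _ _ ha hb => rw [map_mul]; exact Subgroup.mul_mem _ ha hb
  | inv a _ ha => rw [map_inv]; exact Subgroup.inv_mem _ ha

/-- The elements which become good over all small sets. -/
def Gx {U : Base S} (x : (tw U).F (L S)) : Prop :=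
  ∃ D₀ : ℕ, ∀ D : ℕ, ∀ᶠ U' : Base S in atTop, ∀ h : U ≤ U',
    ((ref h).f x).left ∈
      Subgroup.closure ((Raag.of : _ → Raag _ ((tw U').Dis (L S))) '' Z U' D₀) ∧
    Gd U'.1 D D₀ ((ref h).f x).right.1

theorem gx_pr {U : Base S} (p : (tw U).P (L S)) : Gx ((tw U).pr (L S) p) := by
  obtain ⟨D₀, h⟩ := gd_of_mem_L p.2.1
  refine ⟨D₀, fun D => ?_⟩
  filter_upwards [h D] with U' h1 hU
  rw [Tw.Ref.f_pr]
  exact ⟨Subgroup.one_mem _, h1⟩

theorem isU_res {U : Base S} (v : (tw U).Trk (L S)) :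
    ∃ m : ℤ, ∀ᶠ U' : Base S in atTop, ∀ h : U ≤ U', IsU U' ((ref h).res v) m := by
  obtain ⟨m, h1, h2⟩ := niceMap_trk v 0
  refine ⟨m, ?_⟩
  filter_upwards [ev_of h2] with U' h3 h z
  have h4 : ∀ u : U'.1, v.t (⟨u.1, h u.2⟩ : U.1) = m +ᵥ u.1 := by
    intro u
    have h5 := h3 u.1 u.2
    rw [zero_vadd] at h5
    rw [← h5]
    unfold trk
    congr 1
    exact Subtype.ext (st_of_mem (h u.2)).symm
  have h5 : trk ((ref h).res v) z = m +ᵥ st U' z := h4 ⟨st U' z, st_mem U' z⟩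
  rw [h5]
  constructor
  · intro h6
    rw [h6, neg_vadd_vadd]
    exact st_mem U' z
  · intro h6
    have h7 := h4 ⟨_, h6⟩
    have h8 : st U z = -m +ᵥ z := by
      have h9 := congrArg Subtype.val (v.ht (⟨-m +ᵥ z, h h6⟩ : U.1))
      rw [vadd_neg_vadd] at h7
      rw [h7] at h9
      exact h9
    rw [← st_st_of_le h z, h8, st_of_mem h6, vadd_neg_vadd]

theorem gx_tr {U : Base S} (v : (tw U).Trk (L S)) : Gx ((tw U).tr (L S) v) := by
  obtain ⟨a, ha⟩ := gd_of_mem_L v.hT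
  obtain ⟨m, hm⟩ := isU_res v
  refine ⟨m.natAbs + a, fun D => ?_⟩
  filter_upwards [ha (D + m.natAbs + a), hm, ev_sep (D + m.natAbs + a + m.natAbs)] with U' h1 h2 h3 h
  have h4 := h2 h
  have h5 : Gd U'.1 (D + m.natAbs + a) 0 ((tw U').U ((ref h).res v).t ((ref h).res v).ht) :=
    gd_U h4 h3
  rw [Tw.Ref.f_tr]
  have e : (ref h).ft v = ⟨Raag.of ((ref h).res v), (ref h).c v⟩ := by
    refine SemidirectProduct.ext ?_ ?_
    · simp [Tw.Ref.ft, Tw.tr, Tw.pr]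
    · simp [Tw.Ref.ft, Tw.tr, Tw.pr]
  rw [e]
  refine ⟨Subgroup.subset_closure ⟨_, ⟨m, by omega, h4⟩, rfl⟩, ?_⟩
  change Gd U'.1 D (m.natAbs + a) (((tw U').U ((ref h).res v).t ((ref h).res v).ht)⁻¹ *
    (tw U).U v.t v.ht)
  exact Gd.mul (h5.inv.mono le_rfl (Nat.zero_le _)) h1

theorem Gx.mul {U : Base S} {x y : (tw U).F (L S)} (hx : Gx x) (hy : Gx y) : Gx (x * y) := by
  obtain ⟨a, ha⟩ := hx
  obtain ⟨b, hb⟩ := hy
  refine ⟨a + b, fun D => ?_⟩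
  filter_upwards [ha (D + a + b), hb (D + a + b)] with U' h1 h2 h
  obtain ⟨h3, h4⟩ := h1 h
  obtain ⟨h5, h6⟩ := h2 h
  rw [map_mul, SemidirectProduct.mul_left, SemidirectProduct.mul_right]
  refine ⟨Subgroup.mul_mem _ ?_ ?_, Gd.mul h4 h6⟩
  · exact Subgroup.closure_mono (Set.image_mono (Z_mono U' (Nat.le_add_right a b))) h3
  · rw [add_comm]
    exact act_mem (h4.mono (by omega) le_rfl) h5

theorem Gx.inv {U : Base S} {x : (tw U).F (L S)} (hx : Gx x) : Gx x⁻¹ := by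
  obtain ⟨a, ha⟩ := hx
  refine ⟨a + a, fun D => ?_⟩
  filter_upwards [ha (D + a)] with U' h1 h
  obtain ⟨h3, h4⟩ := h1 h
  rw [map_inv, SemidirectProduct.inv_left, SemidirectProduct.inv_right]
  refine ⟨?_, (h4.inv).mono (by omega) (by omega)⟩
  exact act_mem (h4.inv.mono (by omega) le_rfl) (Subgroup.inv_mem _ h3)

theorem gx {U : Base S} (x : (tw U).F (L S)) : Gx x :=
  Tw.F_induction (tw U) gx_tr gx_pr (fun _ _ => Gx.mul) (fun _ => Gx.inv) x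

theorem Z_dis {U : Base S} {D : ℕ}
    (hs : ∀ k : ℤ, k ≠ 0 → k.natAbs ≤ D + D → ∀ u ∈ U.1, k +ᵥ u ∉ U.1) :
    ∀ v ∈ Z U D, ∀ w ∈ Z U D, v ≠ w → (tw U).Dis (L S) v w := by
  rintro v ⟨k, hk, hv⟩ w ⟨m, hm, hw⟩ hvw y hy
  have h1 : -k +ᵥ v.t y ∈ U.1 := (hv _).1 (trk_t v y).symm
  by_cases hkm : k = m
  · refine hvw (Tw.Trk.ext (funext fun y' => ?_))
    have h2 : -k +ᵥ v.t y' ∈ U.1 := (hv _).1 (trk_t v y').symm
    rw [hkm] at h2
    have h3 := (hw _).2 h2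
    rw [h3]
    unfold trk
    exact congrArg w.t (v.ht y')
  · have h2 : -m +ᵥ v.t y ∈ U.1 := by
      rw [hy]
      exact (hw _).1 (trk_t w y).symm
    refine hs (k - m) (by omega) (by omega) _ h1 ?_
    rw [← add_vadd]
    convert h2 using 2
    omega

/-- Elements which act trivially become trivial over a smaller set. -/
theorem inj (S : Sys X) (U : Base S) (x : (tw U).F (L S))
    (hx : (tw U).g x = 1) : ∃ (U' : Base S) (h : U ≤ U'), (ref h).f x = 1 := by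
  have : IsDirectedOrder (Base S) := ⟨fun U U' =>
    ⟨⟨U.1 ∩ U'.1, inter_mem U.2.1 U'.2.1, U.2.2.inter U'.2.2⟩, Set.inter_subset_left,
      Set.inter_subset_right⟩⟩
  have : Nonempty (Base S) := ⟨U⟩
  obtain ⟨D, hD⟩ := gx x
  obtain ⟨U', h1, h2, h⟩ := ((hD D).and ((ev_sep (D + D)).and (eventually_ge_atTop U))).exists
  refine ⟨U', h, ?_⟩
  have : Nonempty (tw U').Ω := ⟨⟨S.x₀, S.mem _ U'.2.1⟩⟩
  refine Tw.good_inj (tw U') (L S) (fun y n => tw_free U' y n) (Z U' D) (Z_dis h2) _ (h1 h).1 ?_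
  rw [Tw.Ref.g_f, hx]

end Pool.Agent.TFG
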