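import Pool.Agent.TFG.Tower

/-!
# The group of the permutations of words of bounded length is locally finite
-/

set_option autoImplicit false

namespace Pool.Agent.TFG

/-- Finitely many functions with values in a finite group generate a finite group. -/
theorem finite_closure_pi {Ω G : Type} [Group G] [Finite G] {A : Type} [Group A] (ρ : A →* (Ω → G))
    (hρ : Function.Injective ρ) (s : Finset A) : Finite (Subgroup.closure (s : Set A)) := by
  classical
  let K : Subgroup (Ω → G) :=
    { carrier := {f | ∀ ω ω', (∀ a ∈ s, ρ a ω = ρ a ω') → f ω = f ω'}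
      mul_mem' := fun {f f'} hf hf' ω ω' h => by
        rw [Pi.mul_apply, Pi.mul_apply, hf ω ω' h, hf' ω ω' h]
      one_mem' := fun ω ω' _ => rfl
      inv_mem' := fun {f} hf ω ω' h => by
        rw [Pi.inv_apply, Pi.inv_apply, hf ω ω' h] }
  have hK : ∀ f : Ω → G, f ∈ K ↔ ∀ ω ω', (∀ a ∈ s, ρ a ω = ρ a ω') → f ω = f ω' :=
    fun f => Iff.rfl
  have hfin : Finite K := by
    refine Finite.of_injective (β := (s → G) → G)
      (fun f v => if h : ∃ ω, ∀ a : s, ρ a.1 ω = v a then f.1 h.choose else 1) ?_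
    intro f f' hff
    refine Subtype.ext (funext fun ω => ?_)
    have h1 := congrFun hff (fun a => ρ a.1 ω)
    have h2 : ∃ ω', ∀ a : s, ρ a.1 ω' = ρ a.1 ω := ⟨ω, fun a => rfl⟩
    simp only [dif_pos h2] at h1
    have h3 := h2.choose_spec
    rw [(hK f.1).1 f.2 ω h2.choose fun a ha => (h3 ⟨a, ha⟩).symm, h1]
    exact (hK f'.1).1 f'.2 _ _ fun a ha => h3 ⟨a, ha⟩
  have hle : Subgroup.closure (s : Set A) ≤ K.comap ρ := by
    rw [Subgroup.closure_le]
    intro a ha
    exact fun ω ω' h => h a ha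
  refine Finite.of_injective (β := K) (fun x => ⟨ρ x.1, hle x.2⟩) ?_
  intro x y hxy
  exact Subtype.ext (hρ (congrArg Subtype.val hxy))

theorem Tw.P_locally_finite {X : Type} (W : Tw X) (T : Subgroup (Equiv.Perm X)) (N : ℕ)
    (h : ∀ ω : W.Ω, {x | W.β x = ω}.Finite ∧ {x | W.β x = ω}.ncard ≤ N) (s : Finset (W.P T)) :
    Finite (Subgroup.closure (s : Set (W.P T))) := by
  classical
  have h1 : ∀ ω : W.Ω, Nonempty ({x // W.β x = ω} ↪ Fin N) := by
    intro ω
    have hf : Finite {x // W.β x = ω} := (h ω).1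
    have : Fintype {x // W.β x = ω} := Fintype.ofFinite _
    refine Function.Embedding.nonempty_of_card_le ?_
    rw [Fintype.card_fin, ← Nat.card_eq_fintype_card]
    exact (h ω).2
  have ι : ∀ ω : W.Ω, {x // W.β x = ω} ↪ Fin N := fun ω => (h1 ω).some
  have hp : ∀ (p : W.P T) (ω : W.Ω) (x : X), W.β (p.1 x) = ω ↔ W.β x = ω :=
    fun p ω x => by rw [p.2.2]
  let res : ∀ ω : W.Ω, W.P T →* Equiv.Perm {x // W.β x = ω} := fun ω =>
    { toFun := fun p => p.1.subtypePerm (hp p ω)
      map_one' := Equiv.ext fun x => rfl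
      map_mul' := fun p q => Equiv.ext fun x => rfl }
  let ρ : W.P T →* (W.Ω → Equiv.Perm (Fin N)) :=
    MonoidHom.pi fun ω => (Equiv.Perm.viaEmbeddingHom (ι ω)).comp (res ω)
  refine finite_closure_pi ρ (fun p q hpq => ?_) s
  refine Subtype.ext (Equiv.ext fun x => ?_)
  have h2 := congrFun hpq (W.β x)
  have h3 : res (W.β x) p = res (W.β x) q := Equiv.Perm.viaEmbeddingHom_injective _ h2
  have h4 := congrArg (fun e : Equiv.Perm {y // W.β y = W.β x} => (e ⟨x, rfl⟩ : X)) h3
  exact h4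

end Pool.Agent.TFG
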