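import Pool.Agent.TFG.Seg

/-!
# The system of a minimal homeomorphism
-/

set_option autoImplicit false

open Filter

namespace Pool.Agent.TFG

/-- The topological full group of a homeomorphism `φ`: the homeomorphisms `g` such that
`g x = φ ^ (c x) x` for all `x`, for some continuous function `c` with values in `ℤ`. -/
def topFull {X : Type} [TopologicalSpace X] (φ : X ≃ₜ X) : Subgroup (X ≃ₜ X) where
  carrier := {g | ∃ c : X → ℤ, Continuous c ∧ ∀ x, g x = (φ ^ (c x)) x}
  mul_mem' := by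
    rintro a b ⟨c, hc, h⟩ ⟨d, hd, h'⟩
    refine ⟨fun x => c (b x) + d x, (hc.comp b.continuous).add hd, fun x => ?_⟩
    change a (b x) = _
    rw [h, zpow_add]
    change _ = (φ ^ c (b x)) ((φ ^ d x) x)
    rw [← h' x]
  one_mem' := ⟨fun _ => 0, continuous_const, fun x => by simp⟩
  inv_mem' := by
    rintro a ⟨c, hc, h⟩
    refine ⟨fun x => -c (a⁻¹ x), (hc.comp (a⁻¹ : X ≃ₜ X).continuous).neg, fun x => ?_⟩
    have h1 : a (a⁻¹ x) = x := a.apply_symm_apply x
    have h2 := h (a⁻¹ x)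
    rw [h1] at h2
    rw [zpow_neg]
    exact ((φ ^ c (a⁻¹ x)).toEquiv.symm_apply_eq.2 h2).symm

/-- The action of `ℤ` by the powers of a homeomorphism. -/
@[reducible] def act {X : Type} [TopologicalSpace X] (φ : X ≃ₜ X) : AddAction ℤ X where
  vadd k x := (φ ^ k) x
  zero_vadd x := by
    change (φ ^ (0 : ℤ)) x = x
    rw [zpow_zero]
    rfl
  add_vadd k l x := by
    change (φ ^ (k + l)) x = (φ ^ k) ((φ ^ l) x)
    rw [zpow_add]
    rfl

theorem pow_add_apply {X : Type} [TopologicalSpace X] (φ : X ≃ₜ X) (k l : ℤ) (x : X) :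
    (φ ^ (k + l)) x = (φ ^ k) ((φ ^ l) x) := by
  rw [zpow_add]
  rfl

section

variable {X : Type} [TopologicalSpace X] [T2Space X] [Infinite X] (φ : X ≃ₜ X)
  (hφ : ∀ x, Dense {y | ∃ n : ℤ, (φ ^ n) x = y})

include hφ

/-- An infinite minimal system has no periodic points. -/
theorem free_of_minimal (k : ℤ) (x : X) (h : (φ ^ k) x = x) : k = 0 := by
  by_contra hk
  have h1 : ∀ n : ℤ, (φ ^ (k * n)) x = x := by
    intro n
    induction n using Int.induction_on with
    | zero => simp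
    | succ i ih =>
      rw [mul_add, mul_one, pow_add_apply, h, ih]
    | pred i ih =>
      rw [mul_sub, mul_one, sub_eq_add_neg, pow_add_apply]
      have h2 : (φ ^ (-k)) x = x := by
        conv_lhs => rw [← h]
        rw [← pow_add_apply, neg_add_cancel, zpow_zero]
        rfl
      rw [h2, ih]
  have h2 : {y | ∃ n : ℤ, (φ ^ n) x = y} ⊆ (fun n : ℤ => (φ ^ n) x) '' Set.Icc (-|k|) |k| := by
    rintro y ⟨n, rfl⟩
    refine ⟨n % k, ⟨?_, ?_⟩, ?_⟩
    · have := Int.emod_nonneg n hk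
      have := abs_nonneg k
      omega
    · exact (Int.emod_lt_abs n hk).le
    · change (φ ^ (n % k)) x = (φ ^ n) x
      conv_rhs => rw [← Int.emod_add_mul_ediv n k, pow_add_apply, h1]
  have h3 : {y | ∃ n : ℤ, (φ ^ n) x = y}.Finite := ((Set.finite_Icc _ _).image _).subset h2
  have h4 := (hφ x).closure_eq
  rw [h3.isClosed.closure_eq] at h4
  rw [h4] at h3
  exact Set.infinite_univ h3

omit [T2Space X] [Infinite X] in
/-- Every point visits a nonempty open set, within bounded time. -/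
theorem visit [CompactSpace X] (V : Set X) (hV : IsOpen V) (hne : V.Nonempty) :
    ∃ M : ℕ, ∀ z : X, ∃ j : ℕ, j < M ∧ (φ ^ (j : ℤ)) z ∈ V := by
  have h1 : ∀ n : ℤ, IsOpen ((φ ^ n : X ≃ₜ X) ⁻¹' V) := fun n => hV.preimage (φ ^ n).continuous
  have h2 : (Set.univ : Set X) ⊆ ⋃ n : ℤ, (φ ^ n : X ≃ₜ X) ⁻¹' V := by
    intro z _
    obtain ⟨y, hy, n, hn⟩ := (hφ z).inter_open_nonempty V hV hne
    refine Set.mem_iUnion.2 ⟨n, ?_⟩
    rw [Set.mem_preimage, hn]
    exact hy
  obtain ⟨t, ht⟩ := isCompact_univ.elim_finite_subcover _ h1 h2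
  obtain ⟨N, hN⟩ : ∃ N : ℕ, ∀ n ∈ t, n.natAbs ≤ N :=
    ⟨t.sup fun n => n.natAbs, fun n hn => Finset.le_sup (f := fun n : ℤ => n.natAbs) hn⟩
  refine ⟨2 * N + 1, fun z => ?_⟩
  obtain ⟨n, hn, h3⟩ : ∃ n ∈ t, (φ ^ n) ((φ ^ (N : ℤ)) z) ∈ V := by
    have := ht (Set.mem_univ ((φ ^ (N : ℤ)) z))
    simp only [Set.mem_iUnion] at this
    obtain ⟨n, hn, h⟩ := this
    exact ⟨n, hn, h⟩
  rw [← pow_add_apply] at h3
  have h4 := hN n hn
  refine ⟨(n + N).toNat, by omega, ?_⟩
  rwa [Int.toNat_of_nonneg (by omega)]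

/-- The system of an infinite minimal homeomorphism at the point `x₀`. -/
@[reducible] def sys [CompactSpace X] [TotallyDisconnectedSpace X] (x₀ : X) :
    @Sys X (act φ) :=
  letI := act φ
  { x₀ := x₀
    F := nhds x₀
    free := free_of_minimal φ hφ
    mem := fun U hU => mem_of_mem_nhds hU
    syn := by
      intro U hU
      obtain ⟨M, hM⟩ := visit φ hφ (interior U) isOpen_interior
        ⟨x₀, mem_interior_iff_mem_nhds.2 hU⟩
      refine ⟨M, fun z => ?_⟩
      obtain ⟨j, h1, h2⟩ := hM z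
      exact ⟨j, h1, interior_subset h2⟩
    cof := by
      intro U hU
      obtain ⟨V, hV, h1, h2⟩ := compact_exists_isClopen_in_isOpen
        (isOpen_interior (s := U)) (mem_interior_iff_mem_nhds.2 hU)
      refine ⟨V, hV.isOpen.mem_nhds h1, h2.trans interior_subset, fun k => ?_⟩
      have h3 : IsClopen ((φ ^ k : X ≃ₜ X) ⁻¹' V) := hV.preimage (φ ^ k).continuous
      by_cases h : (φ ^ k) x₀ ∈ V
      · filter_upwards [h3.isOpen.mem_nhds h] with x hx
        exact ⟨fun _ => h, fun _ => hx⟩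
      · filter_upwards [h3.compl.isOpen.mem_nhds h] with x hx
        exact ⟨fun h' => (hx h').elim, fun h' => (h h').elim⟩
    sep := by
      intro k hk
      have h : (φ ^ k) x₀ ≠ x₀ := fun h => hk (free_of_minimal φ hφ k x₀ h)
      obtain ⟨A, B, hA, hB, h1, h2, h3⟩ := t2_separation h
      refine ⟨B ∩ (φ ^ k : X ≃ₜ X) ⁻¹' A, Filter.inter_mem (hB.mem_nhds h2)
        ((hA.preimage (φ ^ k).continuous).mem_nhds h1), fun u hu hu' => ?_⟩
      exact Set.disjoint_left.1 h3 hu.2 hu'.1 }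

end

/-- The topological full group of an infinite minimal system embeds in the group `L S` of a
system. -/
theorem exists_sys {X : Type} [TopologicalSpace X] [CompactSpace X] [T2Space X]
    [TotallyDisconnectedSpace X] [Infinite X] (φ : X ≃ₜ X)
    (hφ : ∀ x, Dense {y | ∃ n : ℤ, (φ ^ n) x = y}) :
    ∃ (_ : AddAction ℤ X) (S : Sys X) (e : topFull φ →* L S), Function.Injective e := by
  let _ := act φ
  obtain ⟨x₀⟩ : Nonempty X := inferInstance
  have key : ∀ g ∈ topFull φ, (g.toEquiv : Equiv.Perm X) ∈ L (sys φ hφ x₀) := by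
    rintro g ⟨c, hc, h⟩
    refine ⟨?_, fun k => ?_⟩
    · obtain ⟨M, hM⟩ : ∃ M : ℕ, ∀ z, |c z| ≤ M := by
        have h1 : (Set.range c).Finite := by
          have := (isCompact_range hc)
          exact this.finite_of_discrete
        obtain ⟨M, hM⟩ := (h1.image Int.natAbs).bddAbove
        refine ⟨M, fun z => ?_⟩
        have := hM ⟨c z, ⟨z, rfl⟩, rfl⟩
        rw [Int.abs_eq_natAbs]
        exact_mod_cast this
      exact ⟨M, fun z => ⟨c z, hM z, h z⟩⟩
    · refine ⟨c ((φ ^ k) x₀) + k, ?_, ?_⟩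
      · change g ((φ ^ k) x₀) = (φ ^ (c ((φ ^ k) x₀) + k)) x₀
        rw [h, pow_add_apply]
      · have h1 : ∀ᶠ x in nhds x₀, c ((φ ^ k) x) = c ((φ ^ k) x₀) := by
          have h2 : Continuous fun x => c ((φ ^ k) x) := hc.comp (φ ^ k).continuous
          exact h2.continuousAt.eventually (discreteTopology_iff_singleton_mem_nhds.1
            inferInstance (c ((φ ^ k) x₀)))
        change ∀ᶠ x in nhds x₀, g ((φ ^ k) x) = (φ ^ (c ((φ ^ k) x₀) + k)) x
        filter_upwards [h1] with x h2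
        rw [h, h2, pow_add_apply]
  refine ⟨inferInstance, sys φ hφ x₀, ⟨⟨fun g => ⟨(g : X ≃ₜ X).toEquiv, key g g.2⟩, ?_⟩, ?_⟩, ?_⟩
  · rfl
  · intro a b
    rfl
  · intro a b h
    have h1 : ((a : X ≃ₜ X).toEquiv : Equiv.Perm X) = (b : X ≃ₜ X).toEquiv :=
      congrArg Subtype.val h
    exact Subtype.ext (Homeomorph.toEquiv_injective h1)

end Pool.Agent.TFG
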