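import Pool.Agent.TFG.Mid
import Pool.Agent.TFG.Top

/-!
# Topological full groups of minimal homeomorphisms
-/

set_option autoImplicit false

namespace Pool.Agent.TFG

open Pool.Agent.Helper29.BA Pool.Agent.Helper29.PA

variable {C : ∀ (G : Type) [Group G], Prop}

theorem main (hC : ExtClass C) (X : Type) [TopologicalSpace X] [CompactSpace X] [T2Space X]
    [TotallyDisconnectedSpace X] (φ : X ≃ₜ X) (hφ : ∀ x, Dense {y | ∃ n : ℤ, (φ ^ n) x = y}) :
    C (topFull φ) := by
  cases finite_or_infinite X with
  | inl h =>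
    have : Finite (X ≃ₜ X) := Finite.of_injective (fun f : X ≃ₜ X => f.toEquiv)
      Homeomorph.toEquiv_injective
    exact hC.finite _ inferInstance
  | inr h =>
    obtain ⟨_, S, e, he⟩ := exists_sys φ hφ
    exact hC.iso _ _ (MonoidHom.ofInjective he).symm (hC.subgroup _ _ (L_mem hC S))

end Pool.Agent.TFG
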