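import Pool.Agent.TFG.Defs

/-!
# Segments and return maps
-/

set_option autoImplicit false

open Filter

namespace Pool.Agent.TFG

variable {X : Type} [AddAction ℤ X] {S : Sys X}

theorem perm_ai {Y : Type} (g : Equiv.Perm Y) (z : Y) : g (g⁻¹ z) = z := g.apply_symm_apply z

theorem perm_ia {Y : Type} (g : Equiv.Perm Y) (z : Y) : g⁻¹ (g z) = z := g.symm_apply_apply z

/-! ### nice sets and maps -/

theorem Nice.inter {T T' : Set X} (h : Nice S T) (h' : Nice S T') : Nice S (T ∩ T') := by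
  intro k
  filter_upwards [h k, h' k] with x h1 h2
  rw [Set.mem_inter_iff, Set.mem_inter_iff, h1, h2]

theorem Nice.compl {T : Set X} (h : Nice S T) : Nice S Tᶜ := by
  intro k
  filter_upwards [h k] with x h1
  rw [Set.mem_compl_iff, Set.mem_compl_iff, h1]

theorem Nice.preimage {T : Set X} (h : Nice S T) {f : X → X} (hf : NiceMap S f) :
    Nice S (f ⁻¹' T) := by
  intro k
  obtain ⟨m, h1, h2⟩ := hf k
  filter_upwards [h2, h m] with x h3 h4
  rw [Set.mem_preimage, Set.mem_preimage, h1, h3, h4]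

theorem NiceMap.id : NiceMap S (fun z => z) := fun k => ⟨k, rfl, Eventually.of_forall fun _ => rfl⟩

theorem NiceMap.vadd (j : ℤ) : NiceMap S (fun z => j +ᵥ z) := fun k =>
  ⟨j + k, (add_vadd _ _ _).symm, Eventually.of_forall fun _ => (add_vadd _ _ _).symm⟩

theorem NiceMap.comp {f g : X → X} (hf : NiceMap S f) (hg : NiceMap S g) :
    NiceMap S (fun z => f (g z)) := by
  intro k
  obtain ⟨m, h1, h2⟩ := hg k
  obtain ⟨n, h3, h4⟩ := hf m
  refine ⟨n, by simp only [h1, h3], ?_⟩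
  filter_upwards [h2, h4] with x h5 h6
  simp only [h5, h6]

open Classical in
theorem NiceMap.ite {T : Set X} (hT : Nice S T) {f g : X → X} (hf : NiceMap S f)
    (hg : NiceMap S g) : NiceMap S (fun z => if z ∈ T then f z else g z) := by
  intro k
  by_cases h : k +ᵥ S.x₀ ∈ T
  · obtain ⟨m, h1, h2⟩ := hf k
    refine ⟨m, by simp only [if_pos h, h1], ?_⟩
    filter_upwards [h2, hT k] with x h3 h4
    simp only [if_pos (h4.2 h), h3]
  · obtain ⟨m, h1, h2⟩ := hg k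
    refine ⟨m, by simp only [if_neg h, h1], ?_⟩
    filter_upwards [h2, hT k] with x h3 h4
    simp only [if_neg (fun h' => h (h4.1 h')), h3]

theorem Bdd.id : Bdd (fun z : X => z) := ⟨0, fun z => ⟨0, by simp, (zero_vadd _ _).symm⟩⟩

theorem Bdd.vadd (j : ℤ) : Bdd (fun z : X => j +ᵥ z) :=
  ⟨j.natAbs, fun z => ⟨j, by simp, rfl⟩⟩

theorem Bdd.comp {f g : X → X} (hf : Bdd f) (hg : Bdd g) : Bdd (fun z => f (g z)) := by
  obtain ⟨M, hM⟩ := hf
  obtain ⟨N, hN⟩ := hg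
  refine ⟨M + N, fun z => ?_⟩
  obtain ⟨m, h1, h2⟩ := hN z
  obtain ⟨n, h3, h4⟩ := hM (g z)
  refine ⟨n + m, ?_, ?_⟩
  · push_cast
    exact (abs_add_le _ _).trans (add_le_add h3 h1)
  · show f (g z) = (n + m) +ᵥ z
    rw [h4, h2, add_vadd]

open Classical in
theorem Bdd.ite (T : Set X) {f g : X → X} (hf : Bdd f) (hg : Bdd g) :
    Bdd (fun z => if z ∈ T then f z else g z) := by
  obtain ⟨M, hM⟩ := hf
  obtain ⟨N, hN⟩ := hg
  refine ⟨max M N, fun z => ?_⟩
  by_cases h : z ∈ T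
  · obtain ⟨m, h1, h2⟩ := hM z
    exact ⟨m, h1.trans (by exact_mod_cast le_max_left M N), by simp only [if_pos h, h2]⟩
  · obtain ⟨m, h1, h2⟩ := hN z
    exact ⟨m, h1.trans (by exact_mod_cast le_max_right M N), by simp only [if_neg h, h2]⟩

theorem vadd_inj' {j k : ℤ} {z : X} (S : Sys X) (h : j +ᵥ z = k +ᵥ z) : j = k := by
  have h1 : (-k + j) +ᵥ z = z := by rw [add_vadd, h, neg_vadd_vadd]
  have := S.free _ _ h1
  omega

/-! ### the group `L` -/

/-- The permutations which move all points by bounded amounts, and by locally constant amounts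
near the orbit of `x₀`. -/
def L (S : Sys X) : Subgroup (Equiv.Perm X) where
  carrier := {g | Bdd g ∧ NiceMap S g}
  mul_mem' := fun {a b} ha hb => ⟨ha.1.comp hb.1, ha.2.comp hb.2⟩
  one_mem' := ⟨Bdd.id, NiceMap.id⟩
  inv_mem' := by
    rintro g ⟨⟨M, hM⟩, hg⟩
    refine ⟨⟨M, fun z => ?_⟩, fun k => ?_⟩
    · obtain ⟨m, h1, h2⟩ := hM (g⁻¹ z)
      refine ⟨-m, by rwa [abs_neg], ?_⟩
      rw [perm_ai] at h2
      rw [h2, neg_vadd_vadd, ← h2]
    · obtain ⟨m, -, h2⟩ := hM (g⁻¹ (k +ᵥ S.x₀))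
      rw [perm_ai] at h2
      have h3 : g⁻¹ (k +ᵥ S.x₀) = (-m + k) +ᵥ S.x₀ := by
        rw [add_vadd, h2, neg_vadd_vadd, ← h2]
      obtain ⟨n, h4, h5⟩ := hg (-m + k)
      rw [← h3, perm_ai] at h4
      have h6 : k = n := vadd_inj' S h4
      refine ⟨-m + k, h3, ?_⟩
      filter_upwards [h5] with x h7
      rw [Equiv.Perm.inv_eq_iff_eq, h7, h6]

theorem mem_L {g : Equiv.Perm X} : g ∈ L S ↔ Bdd g ∧ NiceMap S g := Iff.rfl

/-! ### segments -/

theorem exists_next (U : Base S) (z : X) : ∃ j : ℕ, ((j + 1 : ℕ) : ℤ) +ᵥ z ∈ U.1 := by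
  obtain ⟨M, hM⟩ := S.syn U.1 U.2.1
  obtain ⟨j, -, h⟩ := hM ((1 : ℤ) +ᵥ z)
  refine ⟨j, ?_⟩
  push_cast
  rwa [add_vadd]

theorem exists_back' (U : Base S) : ∃ M : ℕ, ∀ z, ∃ j : ℕ, j < M ∧ -(j : ℤ) +ᵥ z ∈ U.1 := by
  obtain ⟨M, hM⟩ := S.syn U.1 U.2.1
  refine ⟨M, fun z => ?_⟩
  obtain ⟨j, h1, h2⟩ := hM (-((M - 1 : ℕ) : ℤ) +ᵥ z)
  refine ⟨M - 1 - j, by omega, ?_⟩
  rw [← add_vadd] at h2
  convert h2 using 2
  omega

theorem exists_back (U : Base S) (z : X) : ∃ j : ℕ, -(j : ℤ) +ᵥ z ∈ U.1 := by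
  obtain ⟨M, hM⟩ := exists_back' U
  obtain ⟨j, -, h⟩ := hM z
  exact ⟨j, h⟩

open Classical in
/-- the time since the last visit to `U` -/
noncomputable def bt (U : Base S) (z : X) : ℕ := Nat.find (exists_back U z)

/-- the last visit to `U`: the start of the `U`-segment of `z` -/
noncomputable def st (U : Base S) (z : X) : X := -(bt U z : ℤ) +ᵥ z

open Classical in
/-- the time (minus one) of the next visit to `U` -/
noncomputable def nt (U : Base S) (z : X) : ℕ := Nat.find (exists_next U z)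

/-- the next visit to `U` -/
noncomputable def nx (U : Base S) (z : X) : X := ((nt U z + 1 : ℕ) : ℤ) +ᵥ z

theorem st_mem (U : Base S) (z : X) : st U z ∈ U.1 := by
  classical
  exact Nat.find_spec (exists_back U z)

theorem nx_mem (U : Base S) (z : X) : nx U z ∈ U.1 := by
  classical
  exact Nat.find_spec (exists_next U z)

theorem bt_le {U : Base S} {z : X} {j : ℕ} (h : -(j : ℤ) +ᵥ z ∈ U.1) : bt U z ≤ j := by
  classical
  exact Nat.find_le h

theorem nt_le {U : Base S} {z : X} {j : ℕ} (h : ((j + 1 : ℕ) : ℤ) +ᵥ z ∈ U.1) : nt U z ≤ j := by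
  classical
  exact Nat.find_le h

theorem bt_vadd_st (U : Base S) (z : X) : (bt U z : ℤ) +ᵥ st U z = z := by
  unfold st
  rw [vadd_neg_vadd]

theorem bt_eq {U : Base S} {z : X} {j : ℕ} (h : -(j : ℤ) +ᵥ z ∈ U.1)
    (h' : ∀ i : ℕ, i < j → -(i : ℤ) +ᵥ z ∉ U.1) : bt U z = j :=
  le_antisymm (bt_le h) (not_lt.mp fun hlt => h' _ hlt (st_mem U z))

theorem st_eq {U : Base S} {u : X} (hu : u ∈ U.1) {j : ℕ}
    (h : ∀ i : ℕ, 0 < i → i ≤ j → (i : ℤ) +ᵥ u ∉ U.1) : st U ((j : ℤ) +ᵥ u) = u := by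
  have hb : bt U ((j : ℤ) +ᵥ u) = j := by
    refine bt_eq (by rwa [neg_vadd_vadd]) fun i hi h1 => h (j - i) (by omega) (by omega) ?_
    rw [← add_vadd] at h1
    convert h1 using 2
    omega
  unfold st
  rw [hb, neg_vadd_vadd]

theorem notMem_of_le_bt {U : Base S} {z : X} {i : ℕ} (h0 : 0 < i) (h : i ≤ bt U z) :
    (i : ℤ) +ᵥ st U z ∉ U.1 := by
  intro h1
  have h2 : -((bt U z - i : ℕ) : ℤ) +ᵥ z ∈ U.1 := by
    unfold st at h1
    rw [← add_vadd] at h1
    convert h1 using 2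
    omega
  have := bt_le h2
  omega

theorem st_of_mem {U : Base S} {u : X} (hu : u ∈ U.1) : st U u = u := by
  have := st_eq hu (j := 0) (fun i h1 h2 => by omega)
  rwa [Nat.cast_zero, zero_vadd] at this

theorem st_st (U : Base S) (z : X) : st U (st U z) = st U z := st_of_mem (st_mem U z)

theorem exists_bt_lt (U : Base S) : ∃ M : ℕ, ∀ z, bt U z < M := by
  obtain ⟨M, hM⟩ := exists_back' U
  refine ⟨M, fun z => ?_⟩
  obtain ⟨j, h1, h2⟩ := hM z
  exact (bt_le h2).trans_lt h1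

/-- coarser segments are unions of finer ones -/
theorem st_st_of_le {U U' : Base S} (h : U ≤ U') (z : X) : st U' (st U z) = st U' z := by
  have h1 : bt U z ≤ bt U' z := bt_le (h (st_mem U' z))
  have h2 : st U z = ((bt U' z - bt U z : ℕ) : ℤ) +ᵥ st U' z := by
    unfold st
    rw [← add_vadd]
    congr 1
    omega
  rw [h2]
  exact st_eq (st_mem U' z) fun i h3 h4 => notMem_of_le_bt h3 (by omega)

/-- no visit between: same segment -/
theorem st_vadd_eq {U : Base S} {z : X} {n : ℕ}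
    (h : ∀ i : ℕ, 0 < i → i ≤ n → (i : ℤ) +ᵥ z ∉ U.1) : st U ((n : ℤ) +ᵥ z) = st U z := by
  have h1 : (n : ℤ) +ᵥ z = ((n + bt U z : ℕ) : ℤ) +ᵥ st U z := by
    push_cast
    rw [add_vadd, bt_vadd_st]
  rw [h1]
  refine st_eq (st_mem U z) fun i h2 h3 => ?_
  rcases le_or_gt i (bt U z) with h4 | h4
  · exact notMem_of_le_bt h2 h4
  · have h5 : (i : ℤ) +ᵥ st U z = ((i - bt U z : ℕ) : ℤ) +ᵥ z := by
      unfold st
      rw [← add_vadd]
      congr 1
      omega
    rw [h5]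
    exact h _ (by omega) (by omega)

theorem notMem_of_le_nt {U : Base S} {z : X} {i : ℕ} (h0 : 0 < i) (h : i ≤ nt U z) :
    (i : ℤ) +ᵥ z ∉ U.1 := by
  intro h1
  obtain ⟨j, rfl⟩ : ∃ j, i = j + 1 := ⟨i - 1, by omega⟩
  have := nt_le h1
  omega

theorem nx_eq {U : Base S} {z : X} {n : ℕ} (hn : 0 < n) (h : (n : ℤ) +ᵥ z ∈ U.1)
    (h' : ∀ i : ℕ, 0 < i → i < n → (i : ℤ) +ᵥ z ∉ U.1) : nx U z = (n : ℤ) +ᵥ z := by
  obtain ⟨j, rfl⟩ : ∃ j, n = j + 1 := ⟨n - 1, by omega⟩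
  have h1 : nt U z = j := by
    refine le_antisymm (nt_le h) (not_lt.mp fun hlt => h' (nt U z + 1) (by omega) (by omega) ?_)
    exact nx_mem U z
  unfold nx
  rw [h1]

theorem nx_st (U : Base S) (z : X) : nx U (st U z) = nx U z := by
  have h1 : nx U z = ((nt U z + 1 + bt U z : ℕ) : ℤ) +ᵥ st U z := by
    unfold nx st
    rw [← add_vadd]
    congr 1
    omega
  rw [h1]
  refine nx_eq (by omega) (h1 ▸ nx_mem U z) fun i h2 h3 => ?_
  rcases le_or_gt i (bt U z) with h4 | h4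
  · exact notMem_of_le_bt h2 h4
  · have h5 : (i : ℤ) +ᵥ st U z = ((i - bt U z : ℕ) : ℤ) +ᵥ z := by
      unfold st
      rw [← add_vadd]
      congr 1
      omega
    rw [h5]
    exact notMem_of_le_nt (by omega) (by omega)

open Classical in
/-- the return map of `U` -/
noncomputable def rho (U : Base S) : Equiv.Perm X where
  toFun z := if z ∈ U.1 then nx U z else z
  invFun z := if z ∈ U.1 then st U ((-1 : ℤ) +ᵥ z) else z
  left_inv z := by
    by_cases h : z ∈ U.1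
    · simp only [h, if_true, nx_mem]
      have h1 : (-1 : ℤ) +ᵥ nx U z = (nt U z : ℤ) +ᵥ z := by
        unfold nx
        rw [← add_vadd]
        congr 1
        omega
      rw [h1, st_vadd_eq fun i h2 h3 => notMem_of_le_nt h2 h3, st_of_mem h]
    · simp only [h, if_false]
  right_inv z := by
    by_cases h : z ∈ U.1
    · simp only [h, if_true, st_mem]
      rw [nx_st]
      have h1 : z = ((1 : ℕ) : ℤ) +ᵥ ((-1 : ℤ) +ᵥ z) := by
        rw [← add_vadd]
        norm_num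
      conv_rhs => rw [h1]
      exact nx_eq one_pos (h1 ▸ h) fun i h2 h3 => by omega
    · simp only [h, if_false]

theorem rho_apply {U : Base S} {z : X} (h : z ∈ U.1) : rho U z = nx U z := if_pos h

theorem rho_mem {U : Base S} {z : X} (h : z ∈ U.1) : rho U z ∈ U.1 := by
  rw [rho_apply h]
  exact nx_mem U z

theorem rho_inv_apply {U : Base S} {z : X} (h : z ∈ U.1) :
    (rho U)⁻¹ z = st U ((-1 : ℤ) +ᵥ z) := if_pos h

theorem rho_inv_mem {U : Base S} {z : X} (h : z ∈ U.1) : (rho U)⁻¹ z ∈ U.1 := by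
  rw [rho_inv_apply h]
  exact st_mem U _

theorem rho_st (U : Base S) (z : X) : rho U (st U z) = nx U z := by
  rw [rho_apply (st_mem U z), nx_st]

/-- the first return map of the finer set, seen from the coarser one: same coarse segment -/
theorem st_rho_of_notMem {U U' : Base S} (h : U ≤ U') {u : X} (hu : u ∈ U.1)
    (h' : rho U u ∉ U'.1) : st U' (rho U u) = st U' u := by
  rw [rho_apply hu] at h' ⊢
  unfold nx at h' ⊢
  refine st_vadd_eq fun i h1 h2 => ?_
  rcases Nat.lt_or_ge i (nt U u + 1) with h3 | h3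
  · exact fun h4 => notMem_of_le_nt h1 (by omega) (h h4)
  · obtain rfl : i = nt U u + 1 := by omega
    exact h'

/-- the first return map of the finer set, seen from the coarser one: next coarse segment -/
theorem rho_st_of_mem {U U' : Base S} (h : U ≤ U') {u : X} (hu : u ∈ U.1)
    (h' : rho U u ∈ U'.1) : rho U' (st U' u) = rho U u := by
  rw [rho_st]
  rw [rho_apply hu] at h' ⊢
  unfold nx at h' ⊢
  exact nx_eq (by omega) h' fun i h1 h2 h4 => notMem_of_le_nt h1 (by omega) (h h4)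

/-! ### the segments are nice -/

theorem niceMap_st (U : Base S) : NiceMap S (st U) := by
  intro k
  refine ⟨-(bt U (k +ᵥ S.x₀) : ℤ) + k, by rw [add_vadd]; rfl, ?_⟩
  have h1 : ∀ᶠ x in S.F, ∀ i ∈ Finset.range (bt U (k +ᵥ S.x₀) + 1),
      ((-(i : ℤ) + k) +ᵥ x ∈ U.1 ↔ (-(i : ℤ) + k) +ᵥ S.x₀ ∈ U.1) :=
    (eventually_all_finset _).2 fun i _ => U.2.2 _
  filter_upwards [h1] with x hx
  have h2 : bt U (k +ᵥ x) = bt U (k +ᵥ S.x₀) := by
    refine bt_eq ?_ fun i hi => ?_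
    · rw [← add_vadd, hx _ (Finset.mem_range.2 (by omega)), add_vadd]
      exact st_mem U _
    · rw [← add_vadd, hx _ (Finset.mem_range.2 (by omega)), add_vadd]
      exact fun h3 => absurd (bt_le h3) (by omega)
  unfold st
  rw [h2, ← add_vadd]

theorem niceMap_nx (U : Base S) : NiceMap S (nx U) := by
  intro k
  refine ⟨((nt U (k +ᵥ S.x₀) + 1 : ℕ) : ℤ) + k, by rw [add_vadd]; rfl, ?_⟩
  have h1 : ∀ᶠ x in S.F, ∀ i ∈ Finset.range (nt U (k +ᵥ S.x₀) + 2),
      (((i : ℤ) + k) +ᵥ x ∈ U.1 ↔ ((i : ℤ) + k) +ᵥ S.x₀ ∈ U.1) :=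
    (eventually_all_finset _).2 fun i _ => U.2.2 _
  filter_upwards [h1] with x hx
  rw [add_vadd]
  refine nx_eq (by omega) ?_ fun i h2 h3 => ?_
  · rw [← add_vadd, hx _ (Finset.mem_range.2 (by omega)), add_vadd]
    exact nx_mem U _
  · rw [← add_vadd, hx _ (Finset.mem_range.2 (by omega)), add_vadd]
    exact notMem_of_le_nt h2 (by omega)

theorem bdd_st (U : Base S) : Bdd (st U) := by
  obtain ⟨M, hM⟩ := exists_bt_lt U
  refine ⟨M, fun z => ⟨-(bt U z : ℤ), ?_, rfl⟩⟩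
  rw [abs_neg, Nat.abs_cast]
  exact_mod_cast (hM z).le

theorem bdd_nx (U : Base S) : Bdd (nx U) := by
  obtain ⟨M, hM⟩ := S.syn U.1 U.2.1
  refine ⟨M, fun z => ⟨((nt U z + 1 : ℕ) : ℤ), ?_, rfl⟩⟩
  obtain ⟨j, h1, h2⟩ := hM ((1 : ℤ) +ᵥ z)
  have h3 : nt U z ≤ j := nt_le (by push_cast; rwa [add_vadd])
  rw [Nat.abs_cast]
  exact_mod_cast (by omega : nt U z + 1 ≤ M)

theorem rho_mem_L (U : Base S) : rho U ∈ L S := by
  classical
  exact ⟨(bdd_nx U).ite U.1 Bdd.id, (niceMap_nx U).ite U.2.2 NiceMap.id⟩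

/-- the return map has no periodic points in `U` -/
theorem rho_zpow {U : Base S} {u : X} (hu : u ∈ U.1) {n : ℤ} (h : (rho U ^ n) u = u) : n = 0 := by
  have key : ∀ n : ℕ, (rho U ^ n) u ∈ U.1 ∧ ∃ m : ℕ, n ≤ m ∧ (rho U ^ n) u = (m : ℤ) +ᵥ u := by
    intro n
    induction n with
    | zero => exact ⟨hu, 0, le_rfl, by simp⟩
    | succ n ih =>
      obtain ⟨h1, m, h2, h3⟩ := ih
      rw [pow_succ', Equiv.Perm.mul_apply]
      refine ⟨rho_mem h1, nt U ((rho U ^ n) u) + 1 + m, by omega, ?_⟩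
      rw [rho_apply h1]
      unfold nx
      conv_lhs => rw [h3]
      rw [h3, ← add_vadd]
      push_cast
      rfl
  have key2 : ∀ n : ℕ, (rho U ^ n) u = u → n = 0 := by
    intro n hn
    obtain ⟨-, m, h1, h2⟩ := key n
    rw [hn] at h2
    have := S.free m u h2.symm
    omega
  rcases Int.eq_nat_or_neg n with ⟨m, rfl | rfl⟩
  · rw [zpow_natCast] at h
    rw [key2 m h]
    rfl
  · rw [zpow_neg, zpow_natCast, Equiv.Perm.inv_eq_iff_eq] at h
    rw [key2 m h.symm]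
    rfl

end Pool.Agent.TFG
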