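import Pool.Agent.TFG.Trans
import Pool.Agent.TFG.Seg

/-!
# The towers over the sets of the base
-/

set_option autoImplicit false

open Filter

namespace Pool.Agent.TFG

variable {X : Type} [AddAction ℤ X] {S : Sys X}

theorem rho_mem_iff (U : Base S) (x : X) : rho U x ∈ U.1 ↔ x ∈ U.1 := by
  refine ⟨fun h => ?_, rho_mem⟩
  have := rho_inv_mem h
  rwa [perm_ia] at this

/-- The tower over `U`: the words are the segments of the orbits between visits to `U`. -/
noncomputable abbrev tw (U : Base S) : Tw X where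
  Ω := U.1
  β z := ⟨st U z, st_mem U z⟩
  ψ := (rho U).subtypePerm (rho_mem_iff U)

theorem tw_ψ (U : Base S) (y : U.1) : (((tw U).ψ y : U.1) : X) = rho U y := rfl

theorem tw_ψ_zpow (U : Base S) (y : U.1) (n : ℤ) :
    ((((tw U).ψ ^ n) y : U.1) : X) = (rho U ^ n) y := by
  rw [Equiv.Perm.subtypePerm_zpow]; rfl

theorem tw_free (U : Base S) (y : U.1) (n : ℤ) (h : ((tw U).ψ ^ n) y = y) : n = 0 := by
  refine rho_zpow y.2 ?_
  rw [← tw_ψ_zpow, h]

/-- Words have bounded length. -/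
theorem tw_fin (U : Base S) : ∃ N : ℕ, ∀ y : U.1, {x | (tw U).β x = y}.Finite ∧
    {x | (tw U).β x = y}.ncard ≤ N := by
  obtain ⟨M, hM⟩ := exists_bt_lt U
  refine ⟨M, fun y => ?_⟩
  have hsub : {x | (tw U).β x = y} ⊆ (fun i : ℕ => (i : ℤ) +ᵥ (y : X)) '' (Finset.range M) := by
    rintro x rfl
    exact ⟨bt U x, by simpa using hM x, bt_vadd_st U x⟩
  have hfin : ((fun i : ℕ => (i : ℤ) +ᵥ (y : X)) '' ((Finset.range M : Finset ℕ) : Set ℕ)).Finite :=
    (Finset.finite_toSet _).image _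
  refine ⟨hfin.subset hsub, (Set.ncard_le_ncard hsub hfin).trans ?_⟩
  refine (Set.ncard_image_le (Finset.finite_toSet _)).trans ?_
  rw [Set.ncard_coe_finset, Finset.card_range]

/-- The letter of the track in the word of `z`. -/
noncomputable def trk {U : Base S} (v : (tw U).Trk (L S)) (z : X) : X := v.t ⟨st U z, st_mem U z⟩

theorem trk_st {U : Base S} (v : (tw U).Trk (L S)) (z : X) : st U (trk v z) = st U z :=
  congrArg Subtype.val (v.ht ⟨st U z, st_mem U z⟩)

theorem bdd_trk {U : Base S} (v : (tw U).Trk (L S)) : Bdd (trk v) := by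
  obtain ⟨M, hM⟩ := exists_bt_lt U
  refine ⟨M, fun z => ⟨(bt U (trk v z) : ℤ) - bt U z, ?_, ?_⟩⟩
  · have h1 := hM z
    have h2 := hM (trk v z)
    rw [abs_le]
    constructor <;> omega
  · conv_lhs => rw [← bt_vadd_st U (trk v z), trk_st]
    unfold st
    rw [← add_vadd, sub_eq_add_neg]

theorem U_apply_ne_iff {U : Base S} (v : (tw U).Trk (L S)) (z : X) :
    (tw U).U v.t v.ht z ≠ z ↔ z = trk v z := by
  constructor
  · intro h
    by_contra h1
    exact h (Tw.U_off h1)
  · intro h h1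
    have h2 : (tw U).U v.t v.ht (v.t ⟨st U z, st_mem U z⟩) =
        v.t ((tw U).ψ ⟨st U z, st_mem U z⟩) := Tw.U_track _
    change (tw U).U v.t v.ht (trk v z) = _ at h2
    rw [← h, h1] at h2
    have h3 := congrArg (tw U).β h2
    rw [v.ht] at h3
    have h4 := tw_free U ⟨st U z, st_mem U z⟩ 1 (by rw [zpow_one]; exact h3.symm)
    exact one_ne_zero h4

theorem nice_trk {U : Base S} (v : (tw U).Trk (L S)) : Nice S {z | z = trk v z} := by
  intro k
  obtain ⟨m, h1, h2⟩ := v.hT.2 k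
  filter_upwards [h2] with x h3
  rw [← U_apply_ne_iff, ← U_apply_ne_iff]
  change _ ↔ ¬ ((tw U).U v.t v.ht) (k +ᵥ S.x₀) = k +ᵥ S.x₀
  change (tw U).U v.t v.ht (k +ᵥ S.x₀) = m +ᵥ S.x₀ at h1
  change (tw U).U v.t v.ht (k +ᵥ x) = m +ᵥ x at h3
  rw [h1, ne_eq, h3]
  constructor
  · intro h h4
    exact h (by rw [vadd_inj' S h4])
  · intro h h4
    exact h (by rw [vadd_inj' S h4])

theorem niceMap_trk {U : Base S} (v : (tw U).Trk (L S)) : NiceMap S (trk v) := by
  intro k
  obtain ⟨j, h1, h2⟩ := niceMap_st U k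
  obtain ⟨M, hM⟩ := bdd_trk v
  obtain ⟨m, -, h3⟩ := hM (k +ᵥ S.x₀)
  rw [← add_vadd] at h3
  refine ⟨m + k, h3, ?_⟩
  obtain ⟨j', h4, h5⟩ := niceMap_st U (m + k)
  have h6 : j' = j := by
    rw [← h3, trk_st, h1] at h4
    exact (vadd_inj' S h4).symm
  have h7 : (m + k) +ᵥ S.x₀ = trk v ((m + k) +ᵥ S.x₀) := by
    rw [← h3]
    unfold trk
    congr 1
    exact Subtype.ext (trk_st v _).symm
  filter_upwards [h2, h5, nice_trk v (m + k)] with x h8 h9 h10
  have h11 : (m + k) +ᵥ x = trk v ((m + k) +ᵥ x) := h10.2 h7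
  have e : st U (k +ᵥ x) = st U ((m + k) +ᵥ x) := by rw [h8, h9, h6]
  rw [h11]
  unfold trk
  congr 1
  exact Subtype.ext e

theorem st_nx (U : Base S) (z : X) : st U (nx U z) = nx U z := st_of_mem (nx_mem U z)

/-- Tracks given by nice maps. -/
theorem U_mem {U : Base S} (t : U.1 → X) (ht : ∀ y : U.1, (tw U).β (t y) = y)
    (h1 : Bdd (fun z => t ⟨st U z, st_mem U z⟩)) (h2 : NiceMap S (fun z => t ⟨st U z, st_mem U z⟩)) :
    (tw U).U t ht ∈ L S := by
  classical
  have hK : Nice S {z | z = t ⟨st U z, st_mem U z⟩} := by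
    intro k
    obtain ⟨m, h3, h4⟩ := h2 k
    filter_upwards [h4] with x h5
    constructor
    · intro h
      have h6 : k +ᵥ x = m +ᵥ x := Eq.trans h h5
      have h7 : k +ᵥ S.x₀ = m +ᵥ S.x₀ := by rw [vadd_inj' S h6]
      exact Eq.trans h7 h3.symm
    · intro h
      have h6 : k +ᵥ S.x₀ = m +ᵥ S.x₀ := Eq.trans h h3
      have h7 : k +ᵥ x = m +ᵥ x := by rw [vadd_inj' S h6]
      exact Eq.trans h7 h5.symm
  have he : ∀ z, (tw U).U t ht z = if z ∈ {z | z = t ⟨st U z, st_mem U z⟩} then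
      (fun z => t ⟨st U z, st_mem U z⟩) (nx U z) else z := by
    intro z
    by_cases h : z = t ⟨st U z, st_mem U z⟩
    · refine Eq.trans ?_ (if_pos h).symm
      have h5 : (tw U).U t ht (t ⟨st U z, st_mem U z⟩) = t ((tw U).ψ ⟨st U z, st_mem U z⟩) :=
        Tw.U_track _
      rw [← h] at h5
      rw [h5]
      change _ = t _
      congr 1
      refine Subtype.ext ?_
      rw [tw_ψ]
      exact (rho_st U z).trans (st_nx U z).symm
    · exact (Tw.U_off h).trans (if_neg h).symm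
  refine ⟨?_, ?_⟩
  · have := (h1.comp (bdd_nx U)).ite {z | z = t ⟨st U z, st_mem U z⟩} Bdd.id
    convert this using 1
    exact funext he
  · have := NiceMap.ite hK (h2.comp (niceMap_nx U)) NiceMap.id
    convert this using 1
    exact funext he

/-- The tower over a smaller set has longer words. -/
noncomputable def ref {U U' : Base S} (h : U ≤ U') : Tw.Ref (L S) (tw U) (tw U') where
  j y := (⟨(y : U'.1).1, h (y : U'.1).2⟩ : U.1)
  ρ y := ⟨st U' ((y : U.1) : X), st_mem U' _⟩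
  hβ x := Subtype.ext (st_st_of_le h x).symm
  hj y := Subtype.ext (st_of_mem (y : U'.1).2)
  hψ y := by
    by_cases h' : rho U ((y : U.1) : X) ∈ U'.1
    · right
      exact Subtype.ext (rho_st_of_mem h (y : U.1).2 h').symm
    · left
      refine ⟨Subtype.ext (st_rho_of_notMem h (y : U.1).2 h'), fun y' h1 => h' ?_⟩
      have h2 := congrArg Subtype.val h1
      change rho U ((y : U.1) : X) = ((y' : U'.1) : X) at h2
      rw [h2]
      exact (y' : U'.1).2
  hT v := by
    have he : (fun z => v.t (⟨((⟨st U' z, st_mem U' z⟩ : U'.1) : X), h (st_mem U' z)⟩ : U.1)) =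
        fun z => trk v (st U' z) := by
      funext z
      unfold trk
      congr 1
      exact Subtype.ext (st_of_mem (h (st_mem U' z))).symm
    refine U_mem _ _ ?_ ?_
    · change Bdd (fun z => v.t (⟨((⟨st U' z, st_mem U' z⟩ : U'.1) : X), h (st_mem U' z)⟩ : U.1))
      rw [he]
      exact (bdd_trk v).comp (bdd_st U')
    · change NiceMap S
        (fun z => v.t (⟨((⟨st U' z, st_mem U' z⟩ : U'.1) : X), h (st_mem U' z)⟩ : U.1))
      rw [he]
      exact (niceMap_trk v).comp (niceMap_st U')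

theorem ref_j {U U' : Base S} (h : U ≤ U') (y : U'.1) : (((ref h).j y : U.1) : X) = (y : X) := rfl

end Pool.Agent.TFG
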