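import Mathlib

/-!
# Topological full groups: the basic definitions

`X` carries an action of `ℤ` (the powers of a homeomorphism `φ`), written `k +ᵥ z`. Only germs at
the orbit of one point `x₀` matter; they are described by a filter `F` (the neighbourhoods of
`x₀`).
-/

set_option autoImplicit false

open Filter

namespace Pool.Agent.TFG

/-- The data: a free action of `ℤ`, a point `x₀` and a filter `F` such that the sets of `F` contain
`x₀`, are visited by all points within bounded time, contain sets of `F` whose indicator is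
locally constant at the orbit of `x₀`, and small sets of `F` are disjoint from their translates. -/
structure Sys (X : Type) [AddAction ℤ X] where
  x₀ : X
  F : Filter X
  free : ∀ (k : ℤ) (z : X), k +ᵥ z = z → k = 0
  mem : ∀ U ∈ F, x₀ ∈ U
  syn : ∀ U ∈ F, ∃ M : ℕ, ∀ z : X, ∃ j : ℕ, j < M ∧ (j : ℤ) +ᵥ z ∈ U
  cof : ∀ U ∈ F, ∃ U' ∈ F, U' ⊆ U ∧ ∀ k : ℤ, ∀ᶠ x in F, (k +ᵥ x ∈ U' ↔ k +ᵥ x₀ ∈ U')
  sep : ∀ k : ℤ, k ≠ 0 → ∃ U ∈ F, ∀ u ∈ U, k +ᵥ u ∉ U

variable {X : Type} [AddAction ℤ X]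

/-- The indicator of `T` is locally constant at the orbit of `x₀`. -/
def Nice (S : Sys X) (T : Set X) : Prop :=
  ∀ k : ℤ, ∀ᶠ x in S.F, (k +ᵥ x ∈ T ↔ k +ᵥ S.x₀ ∈ T)

/-- The map `f` moves the points near the orbit of `x₀` by locally constant amounts. -/
def NiceMap (S : Sys X) (f : X → X) : Prop :=
  ∀ k : ℤ, ∃ m : ℤ, f (k +ᵥ S.x₀) = m +ᵥ S.x₀ ∧ ∀ᶠ x in S.F, f (k +ᵥ x) = m +ᵥ x

/-- The map `f` moves all points by bounded amounts along their orbits. -/
def Bdd (f : X → X) : Prop :=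
  ∃ M : ℕ, ∀ z : X, ∃ m : ℤ, |m| ≤ M ∧ f z = m +ᵥ z

/-- The index set: the nice sets of the filter, ordered by reverse inclusion. -/
def Base (S : Sys X) : Type := {U : Set X // U ∈ S.F ∧ Nice S U}

instance (S : Sys X) : Preorder (Base S) where
  le U U' := U'.1 ⊆ U.1
  le_refl _ := subset_rfl
  le_trans _ _ _ h h' := h'.trans h

end Pool.Agent.TFG
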