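import Pool.Agent.TFG.Uni

/-!
# Each element of the group comes from the group of a tower
-/

set_option autoImplicit false

open Filter

namespace Pool.Agent.TFG

variable {X : Type} [AddAction ℤ X] {S : Sys X}

theorem Tw.U_zpow {X : Type} (W : Tw X) {t : W.Ω → X} {ht : ∀ ω, W.β (t ω) = ω} (n : ℤ)
    (ω : W.Ω) : (W.U t ht ^ n) (t ω) = t ((W.ψ ^ n) ω) := by
  have key : ∀ (n : ℕ) (ω : W.Ω), (W.U t ht ^ n) (t ω) = t ((W.ψ ^ n) ω) := by
    intro n
    induction n with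
    | zero => intro ω; rfl
    | succ n ih =>
      intro ω
      rw [pow_succ, Equiv.Perm.mul_apply, Tw.U_track, ih, pow_succ, Equiv.Perm.mul_apply]
  rcases Int.eq_nat_or_neg n with ⟨m, rfl | rfl⟩
  · rw [zpow_natCast, zpow_natCast, key]
  · rw [zpow_neg, zpow_neg, zpow_natCast, zpow_natCast, Equiv.Perm.inv_eq_iff_eq, key]
    congr 1
    exact (perm_ai _ _).symm

theorem Tw.U_zpow_off {X : Type} (W : Tw X) {t : W.Ω → X} {ht : ∀ ω, W.β (t ω) = ω} (n : ℤ)
    {x : X} (h : x ≠ t (W.β x)) : (W.U t ht ^ n) x = x :=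
  Function.IsFixedPt.perm_zpow (Tw.U_off h) n

/-- Products of powers of pairwise disjoint tracks. -/
theorem Tw.prod_tracks {X : Type} (W : Tw X) (T : Subgroup (Equiv.Perm X)) {ι : Type}
    (v : ι → W.Trk T) (n : ι → ℤ) (hv : ∀ i j, i ≠ j → W.Dis T (v i) (v j)) (l : List ι)
    (hl : l.Nodup) :
    (∀ i ∈ l, ∀ ω, ((W.g (l.map fun i => W.tr T (v i) ^ n i).prod : T) : Equiv.Perm X)
      ((v i).t ω) = (v i).t ((W.ψ ^ n i) ω)) ∧
    ∀ x, (∀ i ∈ l, x ≠ (v i).t (W.β x)) →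
      ((W.g (l.map fun i => W.tr T (v i) ^ n i).prod : T) : Equiv.Perm X) x = x := by
  induction l with
  | nil => exact ⟨by simp, fun x _ => by simp⟩
  | cons i l ih =>
    rw [List.nodup_cons] at hl
    obtain ⟨h1, h2⟩ := ih hl.2
    have hg : ∀ x, ((W.g ((i :: l).map fun i => W.tr T (v i) ^ n i).prod : T) : Equiv.Perm X) x =
        (W.U (v i).t (v i).ht ^ n i)
          (((W.g (l.map fun i => W.tr T (v i) ^ n i).prod : T) : Equiv.Perm X) x) := by
      intro x
      rw [List.map_cons, List.prod_cons, map_mul, map_zpow, Subgroup.coe_mul, Subgroup.coe_zpow,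
        Tw.g_tr, Equiv.Perm.mul_apply]
    refine ⟨fun j hj ω => ?_, fun x hx => ?_⟩
    · rw [hg]
      rcases List.mem_cons.1 hj with rfl | hj'
      · rw [h2, Tw.U_zpow]
        intro k hk
        rw [(v j).ht]
        exact hv j k (fun h => hl.1 (h ▸ hk)) ω
      · rw [h1 j hj', Tw.U_zpow_off]
        rw [(v j).ht]
        exact (hv i j (fun h => hl.1 (h ▸ hj')) _).symm
    · rw [hg, h2 x (fun k hk => hx k (List.mem_cons_of_mem _ hk)),
        Tw.U_zpow_off _ _ (hx i List.mem_cons_self)]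

theorem surj (S : Sys X) (g : L S) :
    ∃ (U : Base S) (x : (tw U).F (L S)), (tw U).g x = g := by
  classical
  obtain ⟨M, hM⟩ := (g.2 : _ ∧ _).1
  obtain ⟨M', hM'⟩ := (((L S).inv_mem g.2 : _ ∧ _)).1
  have hnice : NiceMap S ((g : Equiv.Perm X)⁻¹ : Equiv.Perm X) := ((L S).inv_mem g.2 : _ ∧ _).2
  choose m hm0 hm using hnice
  have hmb : ∀ k, |m k - k| ≤ M' := by
    intro k
    obtain ⟨j, h1, h2⟩ := hM' (k +ᵥ S.x₀)
    rw [hm0, ← add_vadd] at h2
    have := vadd_inj' S h2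
    rwa [this, add_sub_cancel_right]
  have hev : ∀ᶠ x in S.F, ∀ p ∈ Finset.Icc (-(M : ℤ)) M,
      (g : Equiv.Perm X)⁻¹ (p +ᵥ x) = m p +ᵥ x :=
    (eventually_all_finset _).2 fun p _ => hm p
  obtain ⟨U, hU, hG⟩ := exists_base S hev (2 * M + M')
  have hle : ∀ {p : ℤ}, p ∈ Finset.Icc (-(M : ℤ)) M → |p| ≤ ((2 * M + M' : ℕ) : ℤ) := by
    intro p hp
    rw [Finset.mem_Icc] at hp
    rw [abs_le]
    push_cast
    constructor <;> omega
  let I : Type := {p : ℤ // p ∈ Finset.Icc (-(M : ℤ)) M}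
  let v : I → (tw U).Trk (L S) := fun p => ut hG p.1 (hle p.2)
  let n : I → ℤ := fun p => idx p.1 - idx (m p.1)
  have hv : ∀ p q : I, p ≠ q → (tw U).Dis (L S) (v p) (v q) := fun p q hpq =>
    ut_dis (D := M) hG (by omega) (abs_le.2 (Finset.mem_Icc.1 p.2)) (abs_le.2 (Finset.mem_Icc.1 q.2))
      _ _ fun h => hpq (Subtype.ext h)
  let l : List I := (Finset.Icc (-(M : ℤ)) M).attach.toList
  have hl : l.Nodup := Finset.nodup_toList _
  have hmem : ∀ p : I, p ∈ l := fun p => Finset.mem_toList.2 (Finset.mem_attach _ p)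
  obtain ⟨h1, h2⟩ := (tw U).prod_tracks (L S) v n hv l hl
  set x := (l.map fun i => (tw U).tr (L S) (v i) ^ n i).prod with hx
  set h : Equiv.Perm X := (((tw U).g x : L S) : Equiv.Perm X) with hh
  -- the key computation
  have key : ∀ z, st U (h⁻¹ (g.1 z)) = st U z := by
    intro z
    by_cases hz : ∃ p : I, ∃ ω, (v p).t ω = g.1 z
    · obtain ⟨p, ω, hω⟩ := hz
      have h3 : h⁻¹ (g.1 z) = (v p).t (((tw U).ψ ^ (-n p)) ω) := by
        rw [Equiv.Perm.inv_eq_iff_eq, h1 p (hmem p), ← Equiv.Perm.mul_apply, ← zpow_add,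
          add_neg_cancel, zpow_zero]
        exact hω.symm
      have h4 : st U ((v p).t (((tw U).ψ ^ (-n p)) ω)) = (rho U ^ (-n p)) (ω : X) := by
        rw [← tw_ψ_zpow]
        exact congrArg Subtype.val ((v p).ht (((tw U).ψ ^ (-n p)) ω))
      have hvU : (rho U ^ (-idx p.1)) (ω : X) ∈ U.1 := rho_zpow_mem ω.2 _
      have h5 : z = m p.1 +ᵥ (rho U ^ (-idx p.1)) (ω : X) := by
        rw [← hU _ hvU p.1 p.2, ← ut_t hG p.1 (hle p.2)]
        exact (perm_ia g.1 z).symm.trans (congrArg _ hω.symm)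
      rw [h3, h4, h5, hG.st hvU, ← Equiv.Perm.mul_apply, ← zpow_add]
      · congr 2
        simp only [n]
        ring
      · have h6 := hmb p.1
        have h7 := Finset.mem_Icc.1 p.2
        rw [abs_le] at h6 ⊢
        push_cast
        constructor <;> omega
    · push Not at hz
      have h3 : h⁻¹ (g.1 z) = g.1 z := by
        rw [Equiv.Perm.inv_eq_iff_eq]
        exact (h2 _ fun p _ h4 => hz p _ h4.symm).symm
      rw [h3]
      obtain ⟨k, h4, h5⟩ := hM z
      rw [abs_le] at h4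
      rcases le_or_gt 0 k with h6 | h6
      · obtain ⟨i, rfl⟩ := Int.eq_ofNat_of_zero_le h6
        rw [h5]
        refine st_vadd_eq fun j h7 h8 h9 => ?_
        have h10 : ((i : ℤ) - j) ∈ Finset.Icc (-(M : ℤ)) M := by
          rw [Finset.mem_Icc]
          constructor <;> omega
        refine hz ⟨_, h10⟩ _ ((ut_eq hG _ (hle h10) h9).trans ?_)
        rw [h5, ← add_vadd, sub_add_cancel]
      · obtain ⟨i, hi⟩ := Int.eq_ofNat_of_zero_le (show 0 ≤ -k by omega)
        have h7 : z = (i : ℤ) +ᵥ g.1 z := by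
          rw [h5, ← add_vadd]
          convert (zero_vadd ℤ z).symm using 2
          omega
        conv_rhs => rw [h7]
        refine (st_vadd_eq fun j h8 h9 h10 => ?_).symm
        have h11 : (-(j : ℤ)) ∈ Finset.Icc (-(M : ℤ)) M := by
          rw [Finset.mem_Icc]
          constructor <;> omega
        refine hz ⟨_, h11⟩ _ ((ut_eq hG _ (hle h11) h10).trans ?_)
        rw [neg_vadd_vadd]
  have hp : h⁻¹ * g.1 ∈ (tw U).P (L S) :=
    ⟨(L S).mul_mem ((L S).inv_mem (((tw U).g x : L S)).2) g.2, fun z => Subtype.ext (key z)⟩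
  refine ⟨U, x * (tw U).pr (L S) ⟨_, hp⟩, Subtype.ext ?_⟩
  rw [map_mul, Subgroup.coe_mul, Tw.g_pr]
  exact mul_inv_cancel_left h g.1

end Pool.Agent.TFG
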