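import Pool.Agent.TFG.RaagMem
import Pool.Agent.TFG.LF
import Pool.Agent.TFG.Sur
import Pool.Agent.TFG.Inj

/-!
# The group of permutations with bounded displacement is in the class
-/

set_option autoImplicit false

open Filter

namespace Pool.Agent.TFG

open Pool.Agent.Helper29.BA Pool.Agent.Helper29.PA

variable {C : ∀ (G : Type) [Group G], Prop}

theorem L_mem (hC : ExtClass C) {X : Type} [AddAction ℤ X] (S : Sys X) : C (L S) := by
  have : IsDirectedOrder (Base S) := ⟨fun U U' =>
    ⟨⟨U.1 ∩ U'.1, inter_mem U.2.1 U'.2.1, U.2.2.inter U'.2.2⟩, Set.inter_subset_left,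
      Set.inter_subset_right⟩⟩
  have : Nonempty (Base S) := ⟨⟨Set.univ, univ_mem, fun k => Eventually.of_forall fun x => by
    simp⟩⟩
  refine hC.colimit (Base S) (fun U => (tw U).F (L S)) (fun U U' h => (ref h).f) ?_ (L S)
    (fun U => (tw U).g) ?_ ?_ ?_ ?_
  · intro U U' U'' h h' x
    exact (ref h).f_f (ref h') (ref (h.trans h')) (fun ω => rfl) x
  · intro U U' h x
    exact (ref h).g_f x
  · intro g
    exact surj S g
  · intro U x hx
    exact inj S U x hx
  · intro U
    obtain ⟨N, hN⟩ := tw_fin U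
    exact raag_mem hC _ _ _ (fun a b h => (tw U).dis_symm (L S) h) _
      ((tw U).P_locally_finite (L S) N hN)

end Pool.Agent.TFG
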