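import Mathlib

/-!
# Right-angled Artin groups (interface)
-/

set_option autoImplicit false

namespace Pool.Agent.TFG

/-- The relations of the right-angled Artin group of the graph `R` on `V`. -/
def raagRel (V : Type) (R : V → V → Prop) : Set (FreeGroup V) :=
  {w | ∃ a b, R a b ∧
    w = FreeGroup.of a * FreeGroup.of b * (FreeGroup.of a)⁻¹ * (FreeGroup.of b)⁻¹}

/-- The right-angled Artin group: generators `V`, and `a`, `b` commute if `R a b`. -/
abbrev Raag (V : Type) (R : V → V → Prop) : Type := PresentedGroup (raagRel V R)

namespace Raag

variable {V : Type} {R : V → V → Prop}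

/-- The generators. -/
def of (a : V) : Raag V R := PresentedGroup.of a

theorem comm {a b : V} (h : R a b) : (of a : Raag V R) * of b = of b * of a := by
  have h1 : (PresentedGroup.mk (raagRel V R))
      (FreeGroup.of a * FreeGroup.of b * (FreeGroup.of a)⁻¹ * (FreeGroup.of b)⁻¹) = 1 :=
    PresentedGroup.one_of_mem ⟨a, b, h, rfl⟩
  rw [map_mul, map_mul, map_mul, map_inv, map_inv, mul_inv_eq_one, mul_inv_eq_iff_eq_mul] at h1
  exact h1

variable {G : Type*} [Group G]

/-- The universal property. -/
def lift (u : V → G) (hu : ∀ a b, R a b → u a * u b = u b * u a) : Raag V R →* G :=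
  PresentedGroup.toGroup (f := u) (by
    rintro _ ⟨a, b, h, rfl⟩
    rw [map_mul, map_mul, map_mul, map_inv, map_inv, mul_inv_eq_one, mul_inv_eq_iff_eq_mul,
      FreeGroup.lift_apply_of, FreeGroup.lift_apply_of]
    exact hu a b h)

@[simp] theorem lift_of (u : V → G) (hu) (a : V) : (lift u hu : Raag V R →* G) (of a) = u a :=
  PresentedGroup.toGroup.of _

theorem hom_ext {f g : Raag V R →* G} (h : ∀ a, f (of a) = g (of a)) : f = g :=
  PresentedGroup.ext h

variable {P : Type} [Group P] [MulAction P V]

/-- The action on the right-angled Artin group. -/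
def act (hR : ∀ (p : P) a b, R a b → R (p • a) (p • b)) : P →* MulAut (Raag V R) where
  toFun p :=
    { toFun := lift (fun a => of (p • a)) (fun a b h => comm (hR p a b h))
      invFun := lift (fun a => of (p⁻¹ • a)) (fun a b h => comm (hR p⁻¹ a b h))
      left_inv := fun x => by
        have h : (lift (fun a => of (p⁻¹ • a)) (fun a b h => comm (hR p⁻¹ a b h))).comp
            (lift (fun a => of (p • a)) (fun a b h => comm (hR p a b h))) =
            MonoidHom.id (Raag V R) := hom_ext fun a => by simp
        exact DFunLike.congr_fun h x
      right_inv := fun x => by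
        have h : (lift (fun a => of (p • a)) (fun a b h => comm (hR p a b h))).comp
            (lift (fun a => of (p⁻¹ • a)) (fun a b h => comm (hR p⁻¹ a b h))) =
            MonoidHom.id (Raag V R) := hom_ext fun a => by simp
        exact DFunLike.congr_fun h x
      map_mul' := map_mul _ }
  map_one' := by
    ext x
    have h : lift (fun a => of ((1 : P) • a)) (fun a b h => comm (hR 1 a b h)) =
        MonoidHom.id (Raag V R) := hom_ext fun a => by simp
    exact DFunLike.congr_fun h x
  map_mul' p q := by
    ext x
    have h : lift (fun a => of ((p * q) • a)) (fun a b h => comm (hR (p * q) a b h)) =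
        (lift (fun a => of (p • a)) (fun a b h => comm (hR p a b h))).comp
          (lift (fun a => of (q • a)) (fun a b h => comm (hR q a b h)) : Raag V R →* Raag V R) :=
      hom_ext fun a => by simp [mul_smul]
    exact DFunLike.congr_fun h x

@[simp] theorem act_of (hR : ∀ (p : P) a b, R a b → R (p • a) (p • b)) (p : P) (a : V) :
    act hR p (of a) = of (p • a) :=
  lift_of (fun a => of (p • a)) (fun a b h => comm (hR p a b h)) a

end Raag

end Pool.Agent.TFG
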