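import Pool.Agent.TFG.Raag
import Pool.Agent.T59.Hnn
import Pool.Agent.T59.LocFin

/-!
# Right-angled Artin groups with a locally finite group of symmetries are in the class
-/

set_option autoImplicit false

namespace Pool.Agent.TFG

open Pool.Agent.Helper29.BA Pool.Agent.Helper29.PA Pool.Agent.T59

namespace Raag

variable {V W : Type} {R : V → V → Prop} {R' : W → W → Prop}

theorem closure_of : Subgroup.closure (Set.range (of : V → Raag V R)) = ⊤ :=
  PresentedGroup.closure_range_of _

/-- Functoriality. -/
def map (f : V → W) (h : ∀ a b, R a b → R' (f a) (f b)) : Raag V R →* Raag W R' :=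
  lift (fun a => of (f a)) fun a b hab => comm (h a b hab)

@[simp] theorem map_of (f : V → W) (h : ∀ a b, R a b → R' (f a) (f b)) (a : V) :
    map f h (of a : Raag V R) = (of (f a) : Raag W R') := lift_of _ _ _

end Raag

open Raag

section

variable {C : ∀ (G : Type) [Group G], Prop}

theorem mem_of_inj (hC : ClosedClass C) {G H : Type} [Group G] [Group H] (f : G →* H)
    (hf : Function.Injective f) (hH : C H) : C G :=
  hC.iso _ _ (MonoidHom.ofInjective hf).symm (hC.subgroup H f.range hH)

theorem mem_raag_option (hC : ExtClass C) {W : Type} (R : Option W → Option W → Prop)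
    (h : C (Raag W fun a b => R (some a) (some b))) : C (Raag (Option W) R) := by
  classical
  let H := Raag W fun a b => R (some a) (some b)
  let A : Subgroup H := Subgroup.closure {x | ∃ a : W, (R none (some a) ∨ R (some a) none) ∧
    x = of a}
  have hN : C (HNNExtension H A A (MulEquiv.refl A)) :=
    mem_hnn hC (MulEquiv.refl A) h (MonoidHom.id H) Function.injective_id 1 (fun a => by
      simp)
  have hA : ∀ a : W, (R none (some a) ∨ R (some a) none) → (of a : H) ∈ A := fun a ha =>
    Subgroup.subset_closure ⟨a, ha, rfl⟩
  have ht : ∀ x ∈ A, (HNNExtension.t : HNNExtension H A A (MulEquiv.refl A)) *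
      HNNExtension.of x = HNNExtension.of x * HNNExtension.t := fun x hx =>
    HNNExtension.t_mul_of (φ := MulEquiv.refl A) ⟨x, hx⟩
  let f : Raag (Option W) R →* HNNExtension H A A (MulEquiv.refl A) :=
    Raag.lift (fun o => o.elim HNNExtension.t fun a => HNNExtension.of (of a : H)) (by
      rintro (_ | a) (_ | b) hab
      · rfl
      · exact ht _ (hA b (Or.inl hab))
      · exact (ht _ (hA a (Or.inr hab))).symm
      · show HNNExtension.of (of a : H) * HNNExtension.of (of b : H) =
          HNNExtension.of (of b : H) * HNNExtension.of (of a : H)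
        rw [← map_mul, ← map_mul, comm (R := fun a b => R (some a) (some b)) hab])
  let g₀ : H →* Raag (Option W) R := Raag.map some fun a b hab => hab
  have hg₀ : ∀ x ∈ A, (of none : Raag (Option W) R) * g₀ x = g₀ x * of none := by
    intro x hx
    induction hx using Subgroup.closure_induction with
    | mem x hx =>
      obtain ⟨a, ha, rfl⟩ := hx
      rw [show g₀ (of a) = of (some a) from Raag.map_of _ _ _]
      rcases ha with ha | ha
      · exact comm ha
      · exact (comm ha).symm
    | one => simp
    | mul x y _ _ h1 h2 => rw [map_mul, ← mul_assoc, h1, mul_assoc, h2, mul_assoc]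
    | inv x _ h1 =>
      rw [map_inv, eq_inv_mul_iff_mul_eq, ← mul_assoc, ← h1, mul_assoc, mul_inv_cancel, mul_one]
  let g : HNNExtension H A A (MulEquiv.refl A) →* Raag (Option W) R :=
    HNNExtension.lift g₀ (of none) fun a => hg₀ a a.2
  have hgf : g.comp f = MonoidHom.id _ := Raag.hom_ext (by
    rintro (_ | a)
    · show g (f (of none)) = of none
      rw [show f (of none) = HNNExtension.t from Raag.lift_of _ _ _]
      exact HNNExtension.lift_t _ _ _
    · show g (f (of (some a))) = of (some a)
      rw [show f (of (some a)) = HNNExtension.of (of a : H) from Raag.lift_of _ _ _,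
        HNNExtension.lift_of]
      exact Raag.map_of _ _ _)
  refine mem_of_inj hC.toClosedClass f (fun x y hxy => ?_) hN
  have := congrArg g hxy
  rwa [← MonoidHom.comp_apply, ← MonoidHom.comp_apply, hgf] at this

theorem mem_raag_finite (hC : ExtClass C) (V : Type) [Finite V] :
    ∀ R : V → V → Prop, C (Raag V R) := by
  induction V using Finite.induction_empty_option with
  | of_equiv e ih =>
    intro R
    have h := ih fun a b => R (e a) (e b)
    refine mem_of_inj hC.toClosedClass (Raag.map (R' := fun a b => R (e a) (e b)) e.symm
      (fun a b hab => by simpa using hab)) (fun x y hxy => ?_) h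
    have h1 := congrArg (Raag.map (R' := R) e fun a b hab => hab) hxy
    rw [← MonoidHom.comp_apply, ← MonoidHom.comp_apply] at h1
    rwa [show (Raag.map (R' := R) e fun a b hab => hab).comp
      (Raag.map (R := R) (R' := fun a b => R (e a) (e b)) e.symm
      (fun a b hab => by simpa using hab)) = MonoidHom.id _ from
      Raag.hom_ext (fun a => by simp)] at h1
  | h_empty =>
    intro R
    refine hC.finite _ ?_
    have h1 : ∀ x : Raag PEmpty R, x = 1 := by
      intro x
      have h2 : x ∈ Subgroup.closure (Set.range (of : PEmpty → Raag PEmpty R)) := by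
        rw [Raag.closure_of]; trivial
      rw [Set.range_eq_empty, Subgroup.closure_empty] at h2
      exact Subgroup.mem_bot.1 h2
    have : Subsingleton (Raag PEmpty R) := ⟨fun x y => by rw [h1 x, h1 y]⟩
    infer_instance
  | h_option ih =>
    intro R
    exact mem_raag_option hC R (ih _)

open Classical in
/-- The retraction to the generators in `s`. -/
noncomputable def retr {V : Type} (R : V → V → Prop) (s : Set V) :
    Raag V R →* Raag s fun a b => R a b :=
  Raag.lift (fun a => if h : a ∈ s then of ⟨a, h⟩ else 1) (by
    intro a b hab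
    by_cases h1 : a ∈ s <;> by_cases h2 : b ∈ s <;> simp only [h1, h2, dite_true, dite_false,
      one_mul, mul_one]
    exact comm (R := fun a b : s => R a b) hab)

theorem retr_map {V : Type} (R : V → V → Prop) (s : Set V)
    (x : Raag s fun a b => R a b) :
    retr R s (Raag.map (R' := R) (Subtype.val : s → V) (fun _ _ h => h) x) = x := by
  have h1 : (retr R s).comp (Raag.map (R' := R) (Subtype.val : s → V) (fun _ _ h => h)) =
      MonoidHom.id _ := Raag.hom_ext (fun a => by simp [retr])
  exact DFunLike.congr_fun h1 x

/-- Right-angled Artin groups are in the class. -/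
theorem mem_raag (hC : ExtClass C) (V : Type) (R : V → V → Prop) : C (Raag V R) := by
  classical
  let m : ∀ s : Finset V, (Raag (s : Set V) fun a b => R a b) →* Raag V R := fun s =>
    Raag.map Subtype.val fun _ _ h => h
  have hm : ∀ s, Function.Injective (m s) := fun s x y hxy => by
    rw [← retr_map R s x, ← retr_map R s y]
    exact congrArg _ hxy
  have htop : C (⊤ : Subgroup (Raag V R)) := by
    refine mem_of_directed hC.toClosedClass (I := Finset V) (S := fun s => (m s).range) ?_
      (fun _ => le_top) ?_ (fun s => hC.iso _ _ (MonoidHom.ofInjective (hm s))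
        (mem_raag_finite hC _ _))
    · intro s t hst
      rintro _ ⟨x, rfl⟩
      refine ⟨Raag.map (R' := fun a b : (t : Set V) => R a b) (Set.inclusion (by exact_mod_cast hst))
        (fun _ _ h => h) x, ?_⟩
      rw [← MonoidHom.comp_apply]
      exact DFunLike.congr_fun (Raag.hom_ext (fun a => by simp [m])) x
    · intro x _
      have hx : x ∈ Subgroup.closure (Set.range (of : V → Raag V R)) := by
        rw [Raag.closure_of]; trivial
      have hmono : ∀ {s t : Finset V}, s ⊆ t → (m s).range ≤ (m t).range := by
        intro s t hst
        rintro _ ⟨x, rfl⟩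
        refine ⟨Raag.map (R' := fun a b : (t : Set V) => R a b)
          (Set.inclusion (by exact_mod_cast hst)) (fun _ _ h => h) x, ?_⟩
        rw [← MonoidHom.comp_apply]
        exact DFunLike.congr_fun (Raag.hom_ext (fun a => by simp [m])) x
      induction hx using Subgroup.closure_induction with
      | mem x hx =>
        obtain ⟨a, rfl⟩ := hx
        exact ⟨{a}, of ⟨a, by simp⟩, Raag.map_of _ _ _⟩
      | one => exact ⟨∅, one_mem _⟩
      | mul x y _ _ h1 h2 =>
        obtain ⟨s, hs⟩ := h1 trivial
        obtain ⟨t, ht⟩ := h2 trivial
        exact ⟨s ∪ t, mul_mem (hmono Finset.subset_union_left hs)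
          (hmono Finset.subset_union_right ht)⟩
      | inv x _ h1 =>
        obtain ⟨s, hs⟩ := h1 trivial
        exact ⟨s, inv_mem hs⟩
  exact hC.iso _ _ Subgroup.topEquiv htop

/-- Locally finite groups. -/
def LocFin (P : Type) [Group P] : Prop :=
  ∀ s : Finset P, Finite (Subgroup.closure (s : Set P))

theorem mem_locFin (hC : ExtClass C) (P : Type) [Group P] (hP : LocFin P) : C P :=
  mem_of_locallyFinite hC (1 : P →* Unit) (hC.finite _ inferInstance) fun T _ => hP T

/-- Right-angled Artin groups by locally finite groups. -/
theorem mem_raag_locFin (hC : ExtClass C) {V : Type} {R : V → V → Prop} {P : Type} [Group P]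
    (hP : LocFin P) (act : P →* MulAut (Raag V R)) : C (Raag V R ⋊[act] P) := by
  classical
  refine hC.ext _ P SemidirectProduct.rightHom (mem_locFin hC P hP) fun q => ?_
  let K : Subgroup (Raag V R ⋊[act] P) := (Subgroup.zpowers q).comap SemidirectProduct.rightHom
  have hq : Finite (Subgroup.zpowers q) := by
    have := hP {q}
    rwa [Finset.coe_singleton, ← Subgroup.zpowers_eq_closure] at this
  let f : K →* Subgroup.zpowers q :=
    (SemidirectProduct.rightHom.comp K.subtype).codRestrict _ fun x => x.2
  have hfi : f.ker.FiniteIndex := by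
    have : Finite f.range := inferInstance
    exact ⟨by
      rw [Subgroup.index_ker]
      exact Nat.card_pos.ne'⟩
  refine hC.finiteIndex K f.ker hfi ?_
  -- the kernel is the right-angled Artin group
  refine mem_of_inj hC.toClosedClass (H := Raag V R)
    { toFun := fun x => (x : K).1.left, map_one' := rfl, map_mul' := ?_ } ?_ (mem_raag hC V R)
  · intro x y
    have hx : (x : K).1.right = 1 := congrArg Subtype.val x.2
    show ((x : K).1 * (y : K).1).left = _
    rw [SemidirectProduct.mul_left, hx, map_one]
    rfl
  · intro x y hxy
    have hx : (x : K).1.right = 1 := congrArg Subtype.val x.2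
    have hy : (y : K).1.right = 1 := congrArg Subtype.val y.2
    apply Subtype.ext
    apply Subtype.ext
    exact SemidirectProduct.ext hxy (hx.trans hy.symm)

/-- **Row RAAG** -/
theorem raag_mem (hC : ExtClass C) (V P : Type) [Group P]
    [MulAction P V] (R : V → V → Prop) (_hs : ∀ a b, R a b → R b a)
    (hR : ∀ (p : P) a b, R a b → R (p • a) (p • b))
    (hLF : ∀ s : Finset P, Finite (Subgroup.closure (s : Set P))) :
    C (Raag V R ⋊[Raag.act hR] P) :=
  mem_raag_locFin hC hLF _

end

end Pool.Agent.TFG
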