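import Pool.Agent.TFG.Raag

/-!
# Towers: words, tracks and the group of a tower

A tower on `X` divides `X` into words: `β x` is the word of `x`, and `ψ ω` is the word after `ω`.
A track `t` selects a letter `t ω` in each word `ω`; `U t` moves the selected letters to the next
word. `F` is the semidirect product of the right-angled Artin group of the tracks (disjoint tracks
commute) with the group of the permutations in `T` which preserve the words.
-/

set_option autoImplicit false

namespace Pool.Agent.TFG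

theorem inv_self_apply {Y : Type} (f : Equiv.Perm Y) (y : Y) : f⁻¹ (f y) = y := f.symm_apply_apply y

theorem self_inv_apply {Y : Type} (f : Equiv.Perm Y) (y : Y) : f (f⁻¹ y) = y := f.apply_symm_apply y

/-- A tower on `X`. -/
structure Tw (X : Type) where
  /-- the set of the words -/
  Ω : Type
  /-- the word of a point -/
  β : X → Ω
  /-- the next word -/
  ψ : Equiv.Perm Ω

namespace Tw

variable {X : Type} (W : Tw X)

open Classical in
/-- The permutation which moves the points of the track `t` to the next word. -/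
noncomputable def U (t : W.Ω → X) (ht : ∀ ω, W.β (t ω) = ω) : Equiv.Perm X where
  toFun x := if x = t (W.β x) then t (W.ψ (W.β x)) else x
  invFun x := if x = t (W.β x) then t (W.ψ⁻¹ (W.β x)) else x
  left_inv x := by
    by_cases h : x = t (W.β x)
    · simp only [if_pos h, ht, if_true, inv_self_apply]
      exact h.symm
    · simp only [if_neg h]
  right_inv x := by
    by_cases h : x = t (W.β x)
    · simp only [if_pos h, ht, if_true, self_inv_apply]
      exact h.symm
    · simp only [if_neg h]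

variable {W} {t s : W.Ω → X} {ht : ∀ ω, W.β (t ω) = ω} {hs : ∀ ω, W.β (s ω) = ω}

theorem U_track (ω : W.Ω) : W.U t ht (t ω) = t (W.ψ ω) := by
  have h : t ω = t (W.β (t ω)) := by rw [ht]
  refine (if_pos h).trans ?_
  rw [ht]

theorem U_off {x : X} (h : x ≠ t (W.β x)) : W.U t ht x = x := if_neg h

theorem Uinv_track (ω : W.Ω) : (W.U t ht)⁻¹ (t ω) = t (W.ψ⁻¹ ω) := by
  rw [Equiv.Perm.inv_eq_iff_eq, U_track, self_inv_apply]

theorem Uinv_off {x : X} (h : x ≠ t (W.β x)) : (W.U t ht)⁻¹ x = x := by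
  rw [Equiv.Perm.inv_eq_iff_eq, U_off h]

theorem U_comm (h : ∀ ω, t ω ≠ s ω) : W.U t ht * W.U s hs = W.U s hs * W.U t ht := by
  ext x
  rw [Equiv.Perm.mul_apply, Equiv.Perm.mul_apply]
  by_cases hx : x = t (W.β x)
  · have h1 : ∀ ω, W.U s hs (t ω) = t ω := fun ω => U_off (by rw [ht]; exact h ω)
    rw [hx, h1, U_track, h1]
  · rw [U_off hx (ht := ht)]
    by_cases hx' : x = s (W.β x)
    · rw [hx', U_track, U_off (by rw [hs]; exact (h _).symm)]
    · rw [U_off hx', U_off hx]

theorem conj_U (p : Equiv.Perm X) (hp : ∀ x, W.β (p x) = W.β x)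
    (hpt : ∀ ω, W.β (p (t ω)) = ω) :
    W.U (fun ω => p (t ω)) hpt = p * W.U t ht * p⁻¹ := by
  rw [eq_mul_inv_iff_mul_eq]
  ext x
  rw [Equiv.Perm.mul_apply, Equiv.Perm.mul_apply]
  by_cases hx : x = t (W.β x)
  · have h1 : W.U (fun ω => p (t ω)) hpt (p (t (W.β x))) = p (t (W.ψ (W.β x))) :=
      U_track (t := fun ω => p (t ω)) (ht := hpt) (W.β x)
    rw [hx, h1, U_track]
  · rw [U_off hx (ht := ht)]
    refine U_off (t := fun ω => p (t ω)) (ht := hpt) fun h => hx ?_
    rw [hp] at h
    exact p.injective h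

variable (T : Subgroup (Equiv.Perm X)) (W)

/-- The permutations in `T` which preserve the words. -/
def P : Subgroup (Equiv.Perm X) where
  carrier := {p | p ∈ T ∧ ∀ x, W.β (p x) = W.β x}
  mul_mem' {a b} ha hb := ⟨T.mul_mem ha.1 hb.1, fun x => by
    rw [Equiv.Perm.mul_apply, ha.2, hb.2]⟩
  one_mem' := ⟨T.one_mem, fun x => rfl⟩
  inv_mem' {a} ha := ⟨T.inv_mem ha.1, fun x => by
    conv_rhs => rw [← self_inv_apply a x, ha.2]⟩

/-- The tracks `t` for which `U t` is in `T`. -/
@[ext] structure Trk where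
  /-- the letters -/
  t : W.Ω → X
  ht : ∀ ω, W.β (t ω) = ω
  hT : W.U t ht ∈ T

/-- Disjoint tracks. -/
def Dis (v w : W.Trk T) : Prop := ∀ ω, v.t ω ≠ w.t ω

instance : MulAction (W.P T) (W.Trk T) where
  smul p v := ⟨fun ω => p.1 (v.t ω), fun ω => by rw [p.2.2, v.ht], by
    rw [conj_U (ht := v.ht) p.1 p.2.2]
    exact T.mul_mem (T.mul_mem p.2.1 v.hT) (T.inv_mem p.2.1)⟩
  one_smul v := rfl
  mul_smul p q v := rfl

@[simp] theorem smul_t (p : W.P T) (v : W.Trk T) (ω : W.Ω) : (p • v).t ω = p.1 (v.t ω) := rfl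

theorem dis_smul (p : W.P T) (v w : W.Trk T) (h : W.Dis T v w) : W.Dis T (p • v) (p • w) :=
  fun ω hω => h ω (p.1.injective hω)

theorem dis_symm {v w : W.Trk T} (h : W.Dis T v w) : W.Dis T w v := fun ω => (h ω).symm

/-- The group of the tower. -/
abbrev F : Type := Raag (W.Trk T) (W.Dis T) ⋊[Raag.act (W.dis_smul T)] (W.P T)

/-- The generators which come from tracks. -/
def tr (v : W.Trk T) : W.F T := SemidirectProduct.inl (Raag.of v)

/-- The permutations of the words. -/
def pr (p : W.P T) : W.F T := SemidirectProduct.inr p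

variable {T}

/-- `U` as an element of `T`. -/
noncomputable def Uv (v : W.Trk T) : T := ⟨W.U v.t v.ht, v.hT⟩

theorem Uv_comm (v w : W.Trk T) (h : W.Dis T v w) : W.Uv v * W.Uv w = W.Uv w * W.Uv v :=
  Subtype.ext (U_comm (ht := v.ht) (hs := w.ht) h)

theorem P_le : W.P T ≤ T := fun _ hp => hp.1

theorem Uv_smul (p : W.P T) (v : W.Trk T) :
    W.Uv (p • v) = Subgroup.inclusion W.P_le p * W.Uv v * (Subgroup.inclusion W.P_le p)⁻¹ :=
  Subtype.ext (conj_U (ht := v.ht) p.1 p.2.2 (p • v).ht)

/-- The action of the group of the tower. -/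
noncomputable def g : W.F T →* T :=
  SemidirectProduct.lift (Raag.lift W.Uv W.Uv_comm) (Subgroup.inclusion W.P_le)
    (fun p => by
      refine Raag.hom_ext (G := T) fun v => ?_
      simp only [MonoidHom.comp_apply, MulEquiv.coe_toMonoidHom, Raag.act_of, Raag.lift_of,
        MulAut.conj_apply]
      exact W.Uv_smul p v)

@[simp] theorem g_tr (v : W.Trk T) : ((W.g (W.tr T v) : T) : Equiv.Perm X) = W.U v.t v.ht := by
  rw [g, tr, SemidirectProduct.lift_inl, Raag.lift_of]; rfl

@[simp] theorem g_pr (p : W.P T) : ((W.g (W.pr T p) : T) : Equiv.Perm X) = p.1 := by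
  rw [g, pr, SemidirectProduct.lift_inr]; rfl

theorem pr_tr (p : W.P T) (v : W.Trk T) : W.pr T p * W.tr T v = W.tr T (p • v) * W.pr T p := by
  rw [pr, tr, tr, ← Raag.act_of (W.dis_smul T), SemidirectProduct.inl_aut, map_inv,
    inv_mul_cancel_right]

/-- Induction on the elements. -/
theorem F_induction {p : W.F T → Prop} (htr : ∀ v, p (W.tr T v)) (hpr : ∀ q, p (W.pr T q))
    (hmul : ∀ x y, p x → p y → p (x * y)) (hinv : ∀ x, p x → p x⁻¹) (x : W.F T) : p x := by
  have h1 : p 1 := by
    have := hpr 1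
    rwa [pr, map_one] at this
  let S : Subgroup (W.F T) :=
    { carrier := {x | p x}
      mul_mem' := fun {a b} ha hb => hmul a b ha hb
      one_mem' := h1
      inv_mem' := fun {a} ha => hinv a ha }
  have h2 : ∀ y : Raag (W.Trk T) (W.Dis T), SemidirectProduct.inl y ∈ S := by
    intro y
    have h3 : (⊤ : Subgroup (Raag (W.Trk T) (W.Dis T))) ≤ S.comap SemidirectProduct.inl := by
      rw [← PresentedGroup.closure_range_of (raagRel (W.Trk T) (W.Dis T)), Subgroup.closure_le]
      rintro _ ⟨v, rfl⟩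
      exact htr v
    exact h3 (Subgroup.mem_top y)
  have h4 := S.mul_mem (h2 x.left) (hpr x.right)
  change p _ at h4
  rwa [pr, SemidirectProduct.inl_left_mul_inr_right] at h4

theorem hom_ext {G : Type*} [Group G] {a b : W.F T →* G} (h1 : ∀ v, a (W.tr T v) = b (W.tr T v))
    (h2 : ∀ p, a (W.pr T p) = b (W.pr T p)) : a = b := by
  refine SemidirectProduct.hom_ext (Raag.hom_ext fun v => ?_) (MonoidHom.ext fun p => ?_)
  · exact h1 v
  · exact h2 p

end Tw

end Pool.Agent.TFG
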