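import Pool.Agent.TFG.Tower

/-!
# Transition maps between the groups of towers
-/

set_option autoImplicit false

namespace Pool.Agent.TFG

namespace Tw

variable {X : Type} (T : Subgroup (Equiv.Perm X))

/-- `W'` has longer words than `W`: the words of `W'` are concatenations of words of `W`, `j ω` is
the first word of `W` in the word `ω` of `W'`, and `ρ ω` is the word of `W'` around `ω`. -/
structure Ref (W W' : Tw X) where
  /-- the first subword -/
  j : W'.Ω → W.Ω
  /-- the word around -/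
  ρ : W.Ω → W'.Ω
  hβ : ∀ x, W'.β x = ρ (W.β x)
  hj : ∀ ω, ρ (j ω) = ω
  hψ : ∀ ω, (ρ (W.ψ ω) = ρ ω ∧ ∀ ω', W.ψ ω ≠ j ω') ∨ W.ψ ω = j (W'.ψ (ρ ω))
  hT : ∀ v : W.Trk T, W'.U (fun ω => v.t (j ω)) (fun ω => by rw [hβ, v.ht, hj]) ∈ T

namespace Ref

variable {T} {W W' W'' : Tw X} (r : Ref T W W')

/-- The first points of a track. -/
def res (v : W.Trk T) : W'.Trk T :=
  ⟨fun ω => v.t (r.j ω), fun ω => by rw [r.hβ, v.ht, r.hj], r.hT v⟩

@[simp] theorem res_t (v : W.Trk T) (ω : W'.Ω) : (r.res v).t ω = v.t (r.j ω) := rfl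

include r in
theorem P_le : W.P T ≤ W'.P T := fun p hp => ⟨hp.1, fun x => by rw [r.hβ, r.hβ, hp.2]⟩

theorem off {v : W.Trk T} {x : X} (h : x ≠ v.t (W.β x)) : x ≠ (r.res v).t (W'.β x) := by
  intro hx
  apply h
  rw [res_t] at hx
  conv_rhs => rw [hx, v.ht]
  exact hx

/-- The inner part of `U v`. -/
noncomputable def cperm (v : W.Trk T) : Equiv.Perm X :=
  (W'.U (r.res v).t (r.res v).ht)⁻¹ * W.U v.t v.ht

theorem cperm_off {v : W.Trk T} {x : X} (h : x ≠ v.t (W.β x)) : r.cperm v x = x := by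
  rw [cperm, Equiv.Perm.mul_apply, U_off h, Uinv_off (r.off h)]

theorem cperm_β (v : W.Trk T) (x : X) : W'.β (r.cperm v x) = W'.β x := by
  by_cases h : x = v.t (W.β x)
  · obtain ⟨ω, rfl⟩ : ∃ ω, v.t ω = x := ⟨_, h.symm⟩
    rw [cperm, Equiv.Perm.mul_apply, U_track]
    rcases r.hψ ω with h1 | h1
    · rw [Uinv_off, r.hβ, r.hβ, v.ht, v.ht, h1.1]
      intro h2
      rw [res_t] at h2
      have h3 := congrArg W.β h2
      rw [v.ht, v.ht] at h3
      exact h1.2 _ h3
    · rw [h1, ← res_t, Uinv_track, inv_self_apply, (r.res v).ht, r.hβ, v.ht]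
  · rw [r.cperm_off h]

/-- The inner part of `U v`, a permutation of the long words. -/
noncomputable def c (v : W.Trk T) : W'.P T :=
  ⟨r.cperm v, T.mul_mem (T.inv_mem (r.res v).hT) v.hT, r.cperm_β v⟩

theorem c_val (v : W.Trk T) : (r.c v).1 = r.cperm v := rfl

theorem c_smul_res {v w : W.Trk T} (h : W.Dis T v w) : r.c v • r.res w = r.res w := by
  refine Trk.ext (funext fun ω => ?_)
  rw [smul_t, c_val, res_t, cperm_off]
  rw [w.ht]
  exact (h _).symm

theorem c_comm {v w : W.Trk T} (h : W.Dis T v w) : r.c v * r.c w = r.c w * r.c v := by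
  refine Subtype.ext ?_
  change r.cperm v * r.cperm w = r.cperm w * r.cperm v
  have hd : Equiv.Perm.Disjoint (r.cperm v) (r.cperm w) := by
    intro x
    by_cases hx : x = v.t (W.β x)
    · right
      refine r.cperm_off fun hx' => h (W.β x) ?_
      rw [← hx, ← hx']
    · exact Or.inl (r.cperm_off hx)
  exact hd.commute

theorem res_dis {v w : W.Trk T} (h : W.Dis T v w) : W'.Dis T (r.res v) (r.res w) :=
  fun ω => h (r.j ω)

/-- The inclusion. -/
def inc : W.P T →* W'.P T := Subgroup.inclusion r.P_le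

@[simp] theorem inc_val (p : W.P T) : (r.inc p).1 = p.1 := rfl

theorem res_smul (p : W.P T) (v : W.Trk T) : r.res (p • v) = r.inc p • r.res v := rfl

theorem c_smul (p : W.P T) (v : W.Trk T) : r.c (p • v) = r.inc p * r.c v * (r.inc p)⁻¹ := by
  refine Subtype.ext ?_
  change (W'.U (r.res (p • v)).t (r.res (p • v)).ht)⁻¹ * W.U (p • v).t (p • v).ht =
    p.1 * ((W'.U (r.res v).t (r.res v).ht)⁻¹ * W.U v.t v.ht) * (p.1)⁻¹
  have h1 : W'.U (r.res (p • v)).t (r.res (p • v)).ht =
      p.1 * W'.U (r.res v).t (r.res v).ht * (p.1)⁻¹ :=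
    conj_U (ht := (r.res v).ht) p.1 (r.P_le p.2).2 (r.res (p • v)).ht
  have h2 : W.U (p • v).t (p • v).ht = p.1 * W.U v.t v.ht * (p.1)⁻¹ :=
    conj_U (ht := v.ht) p.1 p.2.2 (p • v).ht
  rw [h1, h2]
  group

/-- The image of a track. -/
noncomputable def ft (v : W.Trk T) : W'.F T := W'.tr T (r.res v) * W'.pr T (r.c v)

theorem ft_comm (v w : W.Trk T) (h : W.Dis T v w) : r.ft v * r.ft w = r.ft w * r.ft v := by
  have h' : W.Dis T w v := W.dis_symm T h
  have e : ∀ {v w : W.Trk T}, W.Dis T v w → r.ft v * r.ft w =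
      W'.tr T (r.res v) * W'.tr T (r.res w) * W'.pr T (r.c v * r.c w) := by
    intro v w h
    rw [ft, ft, mul_assoc, ← mul_assoc (W'.pr T (r.c v)), pr_tr, r.c_smul_res h]
    simp only [pr, tr, map_mul, mul_assoc]
  rw [e h, e h', r.c_comm h]
  congr 1
  rw [tr, tr, ← map_mul, Raag.comm (r.res_dis h), map_mul]

/-- The transition map. -/
noncomputable def f : W.F T →* W'.F T :=
  SemidirectProduct.lift (Raag.lift r.ft r.ft_comm) (SemidirectProduct.inr.comp r.inc)
    (fun p => by
      refine Raag.hom_ext (G := W'.F T) fun v => ?_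
      simp only [MonoidHom.comp_apply, MulEquiv.coe_toMonoidHom, Raag.act_of, Raag.lift_of,
        MulAut.conj_apply]
      change r.ft (p • v) = W'.pr T (r.inc p) * r.ft v * (W'.pr T (r.inc p))⁻¹
      rw [eq_mul_inv_iff_mul_eq, ft, ft, ← mul_assoc, pr_tr, ← res_smul, mul_assoc, mul_assoc]
      congr 1
      rw [pr, pr, pr, ← map_mul, ← map_mul, c_smul, inv_mul_cancel_right])

@[simp] theorem f_tr (v : W.Trk T) : r.f (W.tr T v) = r.ft v := by
  rw [f, tr, SemidirectProduct.lift_inl, Raag.lift_of]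

@[simp] theorem f_pr (p : W.P T) : r.f (W.pr T p) = W'.pr T (r.inc p) := by
  rw [f, pr, SemidirectProduct.lift_inr]; rfl

/-- The transition maps are compatible with the actions. -/
theorem g_f (x : W.F T) : W'.g (r.f x) = W.g x := by
  have h : (W'.g (T := T)).comp r.f = W.g := by
    refine W.hom_ext (fun v => ?_) (fun p => ?_)
    · refine Subtype.ext ?_
      rw [MonoidHom.comp_apply, f_tr, ft, map_mul]
      change ((W'.g (W'.tr T (r.res v)) : T) : Equiv.Perm X) *
        ((W'.g (W'.pr T (r.c v)) : T) : Equiv.Perm X) = _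
      rw [g_tr, g_pr, g_tr, c_val, cperm, mul_inv_cancel_left]
    · refine Subtype.ext ?_
      rw [MonoidHom.comp_apply, f_pr, g_pr, g_pr, inc_val]
  exact DFunLike.congr_fun h x

/-- Composition of transition maps. -/
theorem f_f (r' : Ref T W' W'') (r'' : Ref T W W'') (h : ∀ ω, r''.j ω = r.j (r'.j ω))
    (x : W.F T) : r'.f (r.f x) = r''.f x := by
  have e : r'.f.comp r.f = r''.f := by
    refine W.hom_ext (fun v => ?_) (fun p => ?_)
    · have h1 : r'.res (r.res v) = r''.res v :=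
        Trk.ext (funext fun ω => by rw [res_t, res_t, res_t, h])
      rw [MonoidHom.comp_apply, f_tr, f_tr, ft, map_mul, f_tr, f_pr, ft, ft, h1, mul_assoc]
      congr 1
      rw [pr, pr, pr, ← map_mul]
      congr 1
      refine Subtype.ext ?_
      change r'.cperm (r.res v) * r.cperm v = r''.cperm v
      simp only [cperm, h1, mul_assoc, mul_inv_cancel_left]
    · rw [MonoidHom.comp_apply, f_pr, f_pr, f_pr]
      rfl
  exact DFunLike.congr_fun e x

end Ref

end Tw

end Pool.Agent.TFG
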