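import Pool.Agent.TFG.Base

/-!
# Uniform tracks

If the visits to `U` are far apart, then each translate `p +ᵥ U`, `|p| ≤ D`, is a track of `U`.
-/

set_option autoImplicit false

open Filter

namespace Pool.Agent.TFG

variable {X : Type} [AddAction ℤ X] {S : Sys X}

/-- The visits to `U` are more than `D` apart. -/
def Gap (D : ℕ) (U : Base S) : Prop :=
  ∀ u ∈ U.1, ∀ i : ℕ, 0 < i → i ≤ D → (i : ℤ) +ᵥ u ∉ U.1

theorem exists_sep (S : Sys X) (D : ℕ) :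
    ∃ V ∈ S.F, ∀ u ∈ V, ∀ i : ℕ, 0 < i → i ≤ D → (i : ℤ) +ᵥ u ∉ V := by
  induction D with
  | zero => exact ⟨Set.univ, univ_mem, fun u _ i h1 h2 => by omega⟩
  | succ D ih =>
    obtain ⟨V, hV, h⟩ := ih
    obtain ⟨W, hW, h'⟩ := S.sep (D + 1 : ℕ) (by omega)
    refine ⟨V ∩ W, inter_mem hV hW, fun u hu i h1 h2 h3 => ?_⟩
    rcases Nat.lt_or_ge i (D + 1) with h4 | h4
    · exact h u hu.1 i h1 (by omega) h3.1
    · obtain rfl : i = D + 1 := by omega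
      exact h' u hu.2 h3.2

/-- There are sets of the base which are small and have large gaps. -/
theorem exists_base (S : Sys X) {p : X → Prop} (hp : ∀ᶠ x in S.F, p x) (D : ℕ) :
    ∃ U : Base S, (∀ u ∈ U.1, p u) ∧ Gap D U := by
  obtain ⟨V, hV, h⟩ := exists_sep S D
  obtain ⟨U, hU, h1, h2⟩ := S.cof _ (inter_mem hp hV)
  refine ⟨⟨U, hU, h2⟩, fun u hu => (h1 hu).1, fun u hu i h3 h4 h5 => ?_⟩
  exact h u (h1 hu).2 i h3 h4 (h1 h5).2

/-- Small sets of the base below a given one. -/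
theorem exists_base_le {U : Base S} {p : X → Prop} (hp : ∀ᶠ x in S.F, p x) (D : ℕ) :
    ∃ U' : Base S, U ≤ U' ∧ (∀ u ∈ U'.1, p u) ∧ Gap D U' := by
  obtain ⟨U', h1, h2⟩ := exists_base S (p := fun x => x ∈ U.1 ∧ p x) (inter_mem U.2.1 hp) D
  exact ⟨U', fun u hu => (h1 u hu).1, fun u hu => (h1 u hu).2, h2⟩

/-- The number of the segment of `k +ᵥ u`, relative to `u ∈ U`. -/
def idx (k : ℤ) : ℤ := if 0 ≤ k then 0 else -1

variable {D : ℕ} {U : Base S}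

theorem Gap.st (hG : Gap D U) {u : X} (hu : u ∈ U.1) {k : ℤ} (hk : |k| ≤ D) :
    TFG.st U (k +ᵥ u) = (rho U ^ idx k) u := by
  rw [abs_le] at hk
  by_cases h : 0 ≤ k
  · obtain ⟨n, rfl⟩ := Int.eq_ofNat_of_zero_le h
    rw [idx, if_pos h, zpow_zero]
    exact st_eq hu fun i h1 h2 => hG u hu i h1 (by omega)
  · rw [idx, if_neg h, zpow_neg_one, rho_inv_apply hu]
    have h1 : (-1 : ℤ) +ᵥ u = ((-1 - k).toNat : ℤ) +ᵥ (k +ᵥ u) := by
      rw [← add_vadd]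
      congr 1
      omega
    rw [h1]
    refine (st_vadd_eq fun i h2 h3 h4 => ?_).symm
    rw [← add_vadd] at h4
    refine hG _ h4 (-(i + k)).toNat (by omega) (by omega) ?_
    rw [← add_vadd]
    convert hu using 1
    convert zero_vadd ℤ u using 2
    omega

theorem rho_zpow_mem {U : Base S} {u : X} (hu : u ∈ U.1) (n : ℤ) : (rho U ^ n) u ∈ U.1 := by
  have := (((tw U).ψ ^ n) ⟨u, hu⟩).2
  rwa [tw_ψ_zpow] at this

theorem bdd_rho_zpow (U : Base S) (n : ℤ) : Bdd (rho U ^ n : Equiv.Perm X) :=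
  ((L S).zpow_mem (rho_mem_L U) n).1

theorem niceMap_rho_zpow (U : Base S) (n : ℤ) : NiceMap S (rho U ^ n : Equiv.Perm X) :=
  ((L S).zpow_mem (rho_mem_L U) n).2

theorem ut_aux (U : Base S) (p n : ℤ) :
    (fun z => p +ᵥ (((tw U).ψ ^ n) ⟨st U z, st_mem U z⟩ : X)) =
      fun z => p +ᵥ (rho U ^ n) (st U z) := funext fun z => by rw [tw_ψ_zpow]

/-- The uniform track `p +ᵥ U`. -/
noncomputable def ut (hG : Gap D U) (p : ℤ) (hp : |p| ≤ D) : (tw U).Trk (L S) where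
  t y := p +ᵥ (((tw U).ψ ^ (-idx p)) y : X)
  ht y := Subtype.ext (by
    show st U (p +ᵥ (((tw U).ψ ^ (-idx p)) y : X)) = y
    rw [hG.st (Subtype.property _) hp, tw_ψ_zpow, ← Equiv.Perm.mul_apply, ← zpow_add,
      add_neg_cancel, zpow_zero]
    rfl)
  hT := U_mem _ _ (by
    change Bdd (fun z => p +ᵥ (((tw U).ψ ^ (-idx p)) ⟨st U z, st_mem U z⟩ : X))
    rw [ut_aux]
    exact (Bdd.vadd p).comp ((bdd_rho_zpow U _).comp (bdd_st U))) (by
    change NiceMap S (fun z => p +ᵥ (((tw U).ψ ^ (-idx p)) ⟨st U z, st_mem U z⟩ : X))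
    rw [ut_aux]
    exact (NiceMap.vadd p).comp ((niceMap_rho_zpow U _).comp (niceMap_st U)))

theorem ut_t (hG : Gap D U) (p : ℤ) (hp : |p| ≤ D) (y : U.1) :
    (ut hG p hp).t y = p +ᵥ (rho U ^ (-idx p)) (y : X) := by
  show p +ᵥ (((tw U).ψ ^ (-idx p)) y : X) = _
  rw [tw_ψ_zpow]

/-- The points of the uniform track. -/
theorem ut_eq (hG : Gap D U) (p : ℤ) (hp : |p| ≤ D) {u : X} (hu : u ∈ U.1) :
    (ut hG p hp).t ⟨(rho U ^ idx p) u, rho_zpow_mem hu _⟩ = p +ᵥ u := by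
  rw [ut_t, ← Equiv.Perm.mul_apply, ← zpow_add, neg_add_cancel, zpow_zero]
  rfl

theorem Gap.eq (hG : Gap D U) {u v : X} (hu : u ∈ U.1) (hv : v ∈ U.1) {p q : ℤ}
    (hpq : |p - q| ≤ D) (h : p +ᵥ u = q +ᵥ v) : p = q := by
  rw [abs_le] at hpq
  by_contra hne
  rcases lt_or_gt_of_ne hne with h1 | h1
  · refine hG v hv (q - p).toNat (by omega) (by omega) ?_
    have h2 : ((q - p).toNat : ℤ) +ᵥ v = u := by
      rw [show ((q - p).toNat : ℤ) = -p + q by omega, add_vadd, ← h, neg_vadd_vadd]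
    rwa [h2]
  · refine hG u hu (p - q).toNat (by omega) (by omega) ?_
    have h2 : ((p - q).toNat : ℤ) +ᵥ u = v := by
      rw [show ((p - q).toNat : ℤ) = -q + p by omega, add_vadd, h, neg_vadd_vadd]
    rwa [h2]

/-- Different uniform tracks are disjoint. -/
theorem ut_dis {D' : ℕ} (hG : Gap D' U) (hD : 2 * D ≤ D') {p q : ℤ} (hp : |p| ≤ D)
    (hq : |q| ≤ D) (hp' : |p| ≤ D') (hq' : |q| ≤ D') (h : p ≠ q) :
    (tw U).Dis (L S) (ut hG p hp') (ut hG q hq') := by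
  intro y hy
  rw [ut_t, ut_t] at hy
  refine h (hG.eq (rho_zpow_mem y.2 _) (rho_zpow_mem y.2 _) ?_ hy)
  rw [abs_le] at *
  constructor <;> omega

end Pool.Agent.TFG
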